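import Pool.Agent.BW.CK

/-!
# Carter - Keller for an abstract normal subgroup of `GL₂(ℤ^ι)`
-/

namespace BWE

open Matrix
open BW hiding star H

section Sym

variable {R : Type*} [CommRing R] {H : Subgroup (Matrix (Fin 2) (Fin 2) R)ˣ}

/-- all matrices of determinant one with first row `(a, b)` are in `H` -/
def SymH (H : Subgroup (Matrix (Fin 2) (Fin 2) R)ˣ) (a b : R) : Prop :=
  ∀ A : (Matrix (Fin 2) (Fin 2) R)ˣ, A.val.det = 1 → A.val 0 0 = a → A.val 0 1 = b → A ∈ H

theorem SymH.left (hel : ∀ (i j : Fin 2) (h : i ≠ j) (x : R), el i j h x ∈ H) {a b : R} (t : R)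
    (h : SymH H (a + t * b) b) : SymH H a b := by
  intro A hA ha hb
  have h1 : A * el 1 0 (by decide) t ∈ H := by
    apply h
    · rw [Units.val_mul, Matrix.det_mul, hA, det_el, one_mul]
    · simp [Units.val_mul, Matrix.mul_apply, Fin.sum_univ_two, el, Matrix.single, ha, hb, mul_comm]
    · simp [Units.val_mul, Matrix.mul_apply, Fin.sum_univ_two, el, Matrix.single, ha, hb]
  exact (Subgroup.mul_mem_cancel_right _ (hel _ _ _ _)).1 h1

theorem SymH.right (hel : ∀ (i j : Fin 2) (h : i ≠ j) (x : R), el i j h x ∈ H) {a b : R} (t : R)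
    (h : SymH H a (b + t * a)) : SymH H a b := by
  intro A hA ha hb
  have h1 : A * el 0 1 (by decide) t ∈ H := by
    apply h
    · rw [Units.val_mul, Matrix.det_mul, hA, det_el, one_mul]
    · simp [Units.val_mul, Matrix.mul_apply, Fin.sum_univ_two, el, Matrix.single, ha, hb, mul_comm]
    · simp [Units.val_mul, Matrix.mul_apply, Fin.sum_univ_two, el, Matrix.single, ha, hb,
        mul_comm, add_comm]
  exact (Subgroup.mul_mem_cancel_right _ (hel _ _ _ _)).1 h1

theorem SymH.one (hel : ∀ (i j : Fin 2) (h : i ≠ j) (x : R), el i j h x ∈ H) (b : R) :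
    SymH H 1 b := by
  intro A hA h hb
  rw [Matrix.det_fin_two, h, one_mul] at hA
  have : A = el 1 0 (by decide) (A.val 1 0) * el 0 1 (by decide) (A.val 0 1) := by
    apply Units.ext
    rw [Units.val_mul, el_val, el_val]
    ext i j
    fin_cases i <;> fin_cases j
    · simp [Matrix.mul_apply, Fin.sum_univ_two, Matrix.single, h]
    · simp [Matrix.mul_apply, Fin.sum_univ_two, Matrix.single]
    · simp [Matrix.mul_apply, Fin.sum_univ_two, Matrix.single]
    · simp [Matrix.mul_apply, Fin.sum_univ_two, Matrix.single]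
      linear_combination hA
  rw [this]
  exact mul_mem (hel _ _ _ _) (hel _ _ _ _)

/-- a matrix of determinant one with a unit in the corner is elementary -/
theorem SymH.unit_left (hel : ∀ (i j : Fin 2) (h : i ≠ j) (x : R), el i j h x ∈ H) {a b : R}
    (h : IsUnit a) : SymH H a b := by
  obtain ⟨v, hv⟩ := h.exists_left_inv
  apply SymH.right hel (v * (1 - b))
  have h1 : b + v * (1 - b) * a = 1 := by linear_combination (1 - b) * hv
  rw [h1]
  apply SymH.left hel (1 - a)
  have h2 : a + (1 - a) * 1 = 1 := by ring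
  rw [h2]
  exact SymH.one hel 1

theorem SymH.of_mem (hel : ∀ (i j : Fin 2) (h : i ≠ j) (x : R), el i j h x ∈ H)
    {A : (Matrix (Fin 2) (Fin 2) R)ˣ} (hA : A.val.det = 1) (h : A ∈ H) :
    SymH H (A.val 0 0) (A.val 0 1) := by
  intro B hB h0 h1
  have hA' := hA
  have hB' := hB
  rw [Matrix.det_fin_two] at hA' hB'
  have key : B = el 1 0 (by decide) (B.val 1 0 * A.val 1 1 - B.val 1 1 * A.val 1 0) * A := by
    apply Units.ext
    rw [Units.val_mul, el_val]
    ext i j
    fin_cases i <;> fin_cases j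
    · simp [Matrix.mul_apply, Fin.sum_univ_two, Matrix.single, h0]
    · simp [Matrix.mul_apply, Fin.sum_univ_two, Matrix.single, h1]
    · simp [Matrix.mul_apply, Fin.sum_univ_two, Matrix.single]
      rw [h0, h1] at hB'
      linear_combination (-(B.val 1 0)) * hA' + A.val 1 0 * hB'
    · simp [Matrix.mul_apply, Fin.sum_univ_two, Matrix.single]
      rw [h0, h1] at hB'
      linear_combination (-(B.val 1 1)) * hA' + A.val 1 1 * hB'
  rw [key]
  exact mul_mem (hel _ _ _ _) h

/-- the transpose of a matrix of determinant one -/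
theorem transpose_mem (hn : H.Normal) (A B : (Matrix (Fin 2) (Fin 2) R)ˣ) (h : B.val = A.valᵀ)
    (hdet : A.val.det = 1) (hA : A ∈ H) : B ∈ H := by
  let W : (Matrix (Fin 2) (Fin 2) R)ˣ := mkU !![0, 1; -1, 0] (by simp [Matrix.det_fin_two])
  have hW : W * A⁻¹ * W⁻¹ = B := by
    rw [mul_inv_eq_iff_eq_mul]
    rw [mul_inv_eq_iff_eq_mul]
    apply Units.ext
    rw [Units.val_mul, Units.val_mul, h]
    have hd := hdet
    rw [Matrix.det_fin_two] at hd
    ext i j
    fin_cases i <;> fin_cases j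
    · simp [W, mkU, Matrix.mul_apply, Fin.sum_univ_two]
      ring
    · simp [W, mkU, Matrix.mul_apply, Fin.sum_univ_two]
      linear_combination (-1 : R) * hd
    · simp [W, mkU, Matrix.mul_apply, Fin.sum_univ_two]
      linear_combination (1 : R) * hd
    · simp [W, mkU, Matrix.mul_apply, Fin.sum_univ_two]
      ring
  rw [← hW]
  exact hn.conj_mem _ (inv_mem hA) W

end Sym

section Prod

variable {ι : Type*} {H : Subgroup (Matrix (Fin 2) (Fin 2) (ι → ℤ))ˣ}

theorem SymH.mul (hel : ∀ (i j : Fin 2) (h : i ≠ j) (x : ι → ℤ), el i j h x ∈ H)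
    (hmul : ∀ A B C : (Matrix (Fin 2) (Fin 2) (ι → ℤ))ˣ, A.val.det = 1 → B.val.det = 1 →
      C.val.det = 1 → (∀ i, A.val 0 0 i ≠ 0) → B.val 0 0 = A.val 0 0 → C.val 0 0 = A.val 0 0 →
      C.val 0 1 = A.val 0 1 * B.val 0 1 → A * B * C⁻¹ ∈ H)
    {a b b' : ι → ℤ} (h : SymH H a b) (h' : SymH H a b') : SymH H a (b * b') := by
  classical
  intro C0 hC0 ha0 hb0
  have hd0 : a * C0.val 1 1 - b * b' * C0.val 1 0 = 1 := by
    rw [← hC0, Matrix.det_fin_two, ha0, hb0]
  let e : ι → ℤ := fun i => if a i = 0 then 1 else 0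
  have hne : ∀ i, (a + e * (b * b')) i ≠ 0 := by
    intro i
    by_cases h0 : a i = 0
    · have h1 := congrFun hd0 i
      simp only [Pi.sub_apply, Pi.mul_apply, Pi.one_apply] at h1
      simp only [Pi.add_apply, Pi.mul_apply, e, h0, if_true, one_mul, zero_add]
      intro h2
      rw [h0, h2] at h1
      simp at h1
    · simp [e, h0]
  refine SymH.left hel e ?_ C0 hC0 ha0 hb0
  have h1 : SymH H (a + e * (b * b')) b := by
    apply SymH.left hel (-(e * b'))
    have : a + e * (b * b') + -(e * b') * b = a := by ring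
    rw [this]
    exact h
  have h1' : SymH H (a + e * (b * b')) b' := by
    apply SymH.left hel (-(e * b))
    have : a + e * (b * b') + -(e * b) * b' = a := by ring
    rw [this]
    exact h'
  generalize a + e * (b * b') = a' at h1 h1' hne
  intro C hC ha hb
  have hd : a' * C.val 1 1 - b * b' * C.val 1 0 = 1 := by
    rw [← hC, Matrix.det_fin_two, ha, hb]
  let A := mkU (!![a', b; b' * C.val 1 0, C.val 1 1] : Matrix (Fin 2) (Fin 2) (ι → ℤ)) (by
    rw [Matrix.det_fin_two_of]; linear_combination hd)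
  let B := mkU (!![a', b'; b * C.val 1 0, C.val 1 1] : Matrix (Fin 2) (Fin 2) (ι → ℤ)) (by
    rw [Matrix.det_fin_two_of]; linear_combination hd)
  have hdA : A.val.det = 1 := by
    show Matrix.det !![a', b; b' * C.val 1 0, C.val 1 1] = 1
    rw [Matrix.det_fin_two_of]; linear_combination hd
  have hdB : B.val.det = 1 := by
    show Matrix.det !![a', b'; b * C.val 1 0, C.val 1 1] = 1
    rw [Matrix.det_fin_two_of]; linear_combination hd
  have hA : A ∈ H := h1 A hdA rfl rfl
  have hB : B ∈ H := h1' B hdB rfl rfl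
  have hs := hmul A B C hdA hdB hC hne rfl ha hb
  have := (Subgroup.mul_mem_cancel_left _ (mul_mem hA hB)).1 hs
  exact (Subgroup.inv_mem_iff _).1 this

/-- the power lemma (first row) -/
theorem pow_memA (hel : ∀ (i j : Fin 2) (h : i ≠ j) (x : ι → ℤ), el i j h x ∈ H)
    (hmul : ∀ A B C : (Matrix (Fin 2) (Fin 2) (ι → ℤ))ˣ, A.val.det = 1 → B.val.det = 1 →
      C.val.det = 1 → (∀ i, A.val 0 0 i ≠ 0) → B.val 0 0 = A.val 0 0 → C.val 0 0 = A.val 0 0 →
      C.val 0 1 = A.val 0 1 * B.val 0 1 → A * B * C⁻¹ ∈ H)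
    (X : ι → SpecialLinearGroup (Fin 2) ℤ) (m : ι → ℕ)
    (h : ∀ i, (X i).val 0 1 ∣ (X i).val 0 0 ^ m i - 1 ∨ (X i).val 0 1 ∣ (X i).val 0 0 ^ m i + 1) :
    F (fun i => X i ^ m i) ∈ H := by
  choose f g h1 h2 using fun i => pow_form (X i) (m i)
  have h3 := fun i => det_form (X i) (X i ^ m i) (f i) (g i) (h1 i)
  choose g1 g2 h4 h5 h6 using fun i => exists_dvd_and_dvd_of_dvd_mul (h3 i)
  choose k1 hk1 using h4
  choose k2 hk2 using h5
  set a : ι → ℤ := fun i => (X i).val 0 0 with ha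
  set b : ι → ℤ := fun i => (X i).val 0 1 with hb
  have e0 : (F (fun i => X i ^ m i)).val 0 0 = f + g * a := by
    ext i
    exact (h1 i).1
  have e1 : (F (fun i => X i ^ m i)).val 0 1 = g1 * (g2 * b) := by
    ext i
    simp only [F_apply, Pi.mul_apply]
    rw [(h1 i).2.1, h6 i, hb, mul_assoc]
  have s1 : SymH H (f + g * a) g1 := by
    apply SymH.left hel (-(k1 + g2 * a))
    apply SymH.unit_left hel
    have : f + g * a + -(k1 + g2 * a) * g1 = -1 := by
      ext i
      simp only [Pi.add_apply, Pi.mul_apply, Pi.neg_apply, Pi.one_apply]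
      rw [h6 i]
      linear_combination hk1 i
    rw [this]
    exact isUnit_one.neg
  have s2 : SymH H (f + g * a) g2 := by
    apply SymH.left hel (-(k2 + g1 * a))
    apply SymH.unit_left hel
    have : f + g * a + -(k2 + g1 * a) * g2 = 1 := by
      ext i
      simp only [Pi.add_apply, Pi.mul_apply, Pi.neg_apply, Pi.one_apply]
      rw [h6 i]
      linear_combination hk2 i
    rw [this]
    exact isUnit_one
  have s3 : SymH H (f + g * a) b := by
    have : ∀ i, ∃ t u : ℤ, (f i + g i * a i) + t * b i = u ∧ (u = 1 ∨ u = -1) := by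
      intro i
      obtain ⟨k, hk⟩ := h2 i
      have e2 : (X i ^ m i).val 0 0 = f i + g i * a i := (h1 i).1
      rw [e2] at hk
      rcases h i with ⟨l, hl⟩ | ⟨l, hl⟩
      · exact ⟨-(k + l), 1, by linear_combination hk + hl, Or.inl rfl⟩
      · exact ⟨-(k + l), -1, by linear_combination hk + hl, Or.inr rfl⟩
    choose t u ht hu using this
    apply SymH.left hel t
    apply SymH.unit_left hel
    have : f + g * a + t * b = u := by
      ext i
      exact ht i
    rw [this]
    refine isUnit_iff_exists_inv.2 ⟨u, ?_⟩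
    ext i
    rcases hu i with h | h <;> simp [h]
  have s := SymH.mul hel hmul s1 (SymH.mul hel hmul s2 s3)
  exact s _ (det_F _) e0 e1

/-- the power lemma (first column) -/
theorem pow_memA' (hn : H.Normal) (hel : ∀ (i j : Fin 2) (h : i ≠ j) (x : ι → ℤ), el i j h x ∈ H)
    (hmul : ∀ A B C : (Matrix (Fin 2) (Fin 2) (ι → ℤ))ˣ, A.val.det = 1 → B.val.det = 1 →
      C.val.det = 1 → (∀ i, A.val 0 0 i ≠ 0) → B.val 0 0 = A.val 0 0 → C.val 0 0 = A.val 0 0 →
      C.val 0 1 = A.val 0 1 * B.val 0 1 → A * B * C⁻¹ ∈ H)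
    (X : ι → SpecialLinearGroup (Fin 2) ℤ) (m : ι → ℕ)
    (h : ∀ i, (X i).val 1 0 ∣ (X i).val 0 0 ^ m i - 1 ∨ (X i).val 1 0 ∣ (X i).val 0 0 ^ m i + 1) :
    F (fun i => X i ^ m i) ∈ H := by
  have h1 := pow_memA hel hmul (fun i => (X i).transpose) m (by
    intro i
    simpa using h i)
  refine transpose_mem hn _ _ ?_ (det_F _) h1
  ext r s i
  simp only [F_apply, Matrix.transpose_apply]
  have : ((X i).transpose ^ m i).val = ((X i ^ m i).val)ᵀ := by
    simp [Matrix.transpose_pow]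
  rw [this]
  rfl

theorem ck_auxA (hn : H.Normal) (hel : ∀ (i j : Fin 2) (h : i ≠ j) (x : ι → ℤ), el i j h x ∈ H)
    (hmul : ∀ A B C : (Matrix (Fin 2) (Fin 2) (ι → ℤ))ˣ, A.val.det = 1 → B.val.det = 1 →
      C.val.det = 1 → (∀ i, A.val 0 0 i ≠ 0) → B.val 0 0 = A.val 0 0 → C.val 0 0 = A.val 0 0 →
      C.val 0 1 = A.val 0 1 * B.val 0 1 → A * B * C⁻¹ ∈ H)
    (X : ι → SpecialLinearGroup (Fin 2) ℤ) (m : ι → ℕ)
    (h : ∀ i, (X i).val 0 1 ∣ (X i).val 0 0 ^ (m i + 1) - 1)
    (h' : ∀ i, (X i).val 1 0 ∣ (X i).val 0 0 ^ m i - 1 ∨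
      (X i).val 1 0 ∣ (X i).val 0 0 ^ m i + 1) : F X ∈ H := by
  have h1 := pow_memA hel hmul X (fun i => m i + 1) (fun i => Or.inl (h i))
  have h2 := pow_memA' hn hel hmul X m h'
  have h3 : X = (fun i => X i ^ (m i + 1)) * (fun i => X i ^ m i)⁻¹ := by
    funext i
    rw [Pi.mul_apply, Pi.inv_apply, pow_succ']
    group
  rw [h3, map_mul, map_inv]
  exact mul_mem h1 (inv_mem h2)

end Prod

/-- **Carter - Keller** for an abstract normal subgroup of `GL₂(ℤ^ι)` -/
theorem ck_abs {ι : Type*} (H : Subgroup (Matrix (Fin 2) (Fin 2) (ι → ℤ))ˣ) (hn : H.Normal)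
    (hel : ∀ (i j : Fin 2) (h : i ≠ j) (x : ι → ℤ), el i j h x ∈ H)
    (hmul : ∀ A B C : (Matrix (Fin 2) (Fin 2) (ι → ℤ))ˣ, A.val.det = 1 → B.val.det = 1 →
      C.val.det = 1 → (∀ i, A.val 0 0 i ≠ 0) → B.val 0 0 = A.val 0 0 → C.val 0 0 = A.val 0 0 →
      C.val 0 1 = A.val 0 1 * B.val 0 1 → A * B * C⁻¹ ∈ H)
    (A : (Matrix (Fin 2) (Fin 2) (ι → ℤ))ˣ) (hA : A.val.det = 1) : A ∈ H := by
  classical
  set a := A.val 0 0 with ha
  set b := A.val 0 1 with hb
  have hdet : ∀ i, a i * A.val 1 1 i - b i * A.val 1 0 i = 1 := by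
    intro i
    have := congrFun hA i
    rw [Matrix.det_fin_two] at this
    simpa using this
  let e : ι → ℤ := fun i => if a i = 0 then 1 else 0
  have hcop : ∀ i, IsCoprime ((a + e * b) i) (b i) := by
    intro i
    have : IsCoprime (a i) (b i) := ⟨A.val 1 1 i, -A.val 1 0 i, by linear_combination hdet i⟩
    exact (IsCoprime.add_mul_right_left_iff).2 this
  have hne : ∀ i, (a + e * b) i ≠ 0 := by
    intro i
    by_cases h0 : a i = 0
    · have h1 := hdet i
      simp only [Pi.add_apply, Pi.mul_apply, e, h0, if_true, one_mul, zero_add]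
      intro h2
      rw [h0, h2] at h1
      simp at h1
    · simp [e, h0]
  choose p q t u s d m h1 h2 h3 h4 h5 using fun i => exists_pq _ _ (hne i) (hcop i)
  have key : SymH H a b := by
    apply SymH.left hel e
    apply SymH.right hel t
    have e1 : b + t * (a + e * b) = p := by ext i; exact h1 i
    rw [e1]
    apply SymH.left hel u
    have e2 : a + e * b + u * p = s := by ext i; exact h2 i
    rw [e2]
    let X : ι → SpecialLinearGroup (Fin 2) ℤ := fun i =>
      ⟨!![s i, p i; q i, d i], by rw [Matrix.det_fin_two_of]; exact h3 i⟩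
    have h6 : F X ∈ H := ck_auxA hn hel hmul X m h4 h5
    exact SymH.of_mem hel (det_F X) h6
  exact key A hA rfl rfl

end BWE
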