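import Pool.Agent.BWC.Fam

/-!
# Two hyperbolic planes (`m = 2`), type `C`: elementary matrices of the Levi subgroup
-/

namespace BWE

open Matrix
open BW hiding star
open BWC

section E1

/-- a pure element of norm prime to `r` -/
theorem pure_coprime {N : ℕ} {R Λ : Type*} [CommRing R] [IsLocalization.Away (N : ℤ) R] [Ring Λ]
    [Algebra R Λ] [Module.Free R Λ] [Module.Finite R Λ] (hN : N ≠ 0) (Q : QAlg N R Λ) (r : R)
    (hr : r ≠ 0) : ∃ (c : Λ) (α β : R), Q.T c = 0 ∧ α * Q.n c + β * r = 1 := by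
  obtain ⟨u, M, hM, hMN, hmu⟩ := Loc.exists_unit_mul hN hr
  have hpN : ∀ p ∈ M.primeFactors, ¬ p ∣ N := fun p hp h =>
    (Nat.prime_of_mem_primeFactors hp).one_lt.ne'
      (Nat.eq_one_of_dvd_coprimes hMN (Nat.dvd_of_mem_primeFactors hp) h)
  obtain ⟨s, hs, hs'⟩ := Arith.exists_pure_coprime Q hN M.primeFactors
    (fun p hp => Nat.prime_of_mem_primeFactors hp) hpN
  have hcop : IsCoprime (Q.n s) r := by
    refine Loc.isCoprime hN _ _ (Or.inr hr) ?_
    rintro p hp hpN' ⟨h1, h2⟩
    rw [hmu] at h2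
    have h3 := (IsUnit.dvd_mul_left u.isUnit).mp h2
    rw [Loc.natCast_dvd_natCast hp hpN'] at h3
    exact hs' p (Nat.mem_primeFactors.mpr ⟨hp, h3, hM.ne'⟩) h1
  obtain ⟨α, β, h⟩ := hcop
  exact ⟨s, α, β, hs, h⟩

/-- two pure elements generate the unit right ideal -/
theorem pure_gen {N : ℕ} {R Λ : Type*} [CommRing R] [IsLocalization.Away (N : ℤ) R] [Ring Λ]
    [Algebra R Λ] [Module.Free R Λ] [Module.Finite R Λ] (hN : N ≠ 0) (Q : QAlg N R Λ) :
    ∃ s₁ s₂ y₁ y₂ : Λ, Q.T s₁ = 0 ∧ Q.T s₂ = 0 ∧ s₁ * y₁ + s₂ * y₂ = 1 := by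
  obtain ⟨q, hq1, hq⟩ := Nat.exists_infinite_primes (N + 1)
  have hqN : ¬ q ∣ N := fun h => by
    have := Nat.le_of_dvd (Nat.pos_of_ne_zero hN) h
    omega
  obtain ⟨s₁, hs₁, hs₁'⟩ := Arith.exists_pure_coprime Q hN {q}
    (fun p hp => by rw [Finset.mem_singleton.1 hp]; exact hq)
    (fun p hp => by rw [Finset.mem_singleton.1 hp]; exact hqN)
  have hn : Q.n s₁ ≠ 0 := fun h => hs₁' q (Finset.mem_singleton_self q) (by rw [h]; exact dvd_zero _)
  obtain ⟨s₂, α, β, hs₂, h⟩ := pure_coprime hN Q (Q.n s₁) hn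
  refine ⟨s₁, s₂, β • Q.conj s₁, α • Q.conj s₂, hs₁, hs₂, ?_⟩
  rw [mul_smul_comm, mul_smul_comm, Q.mul_conj, Q.mul_conj, Algebra.smul_def, Algebra.smul_def,
    ← map_mul, ← map_mul, ← map_add, add_comm, h, map_one]

/-- the identity behind `lev_el_skew` -/
theorem lev_el_skew_eq {P : Type*} [Ring P] [StarRing P] (s y : P) (hs : star s = -s) (i j : Fin 2)
    (h : i ≠ j) : lev (el i j h (s * y)) =
      up (Matrix.single i i s) *
        lo (Matrix.single i j y - Matrix.single j i (star y)) *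
      up (-Matrix.single i i s) *
        lo (-(Matrix.single i j y - Matrix.single j i (star y) -
          Matrix.single j j (star y * s * y))) := by
  have s1 : ∀ (a b c d : Fin 2) (u v : P), b ≠ c →
      Matrix.single a b u * Matrix.single c d v = 0 := fun a b c d u v hbc =>
    Matrix.single_mul_single_of_ne _ _ _ _ hbc _
  have e1 : (el i j h (s * y)).val = 1 + Matrix.single i j (s * y) := rfl
  have e2 : ((el i j h (s * y))⁻¹).val = 1 - Matrix.single i j (s * y) := rfl
  have h1 : Matrix.single i i s * (Matrix.single i j y - Matrix.single j i (star y)) =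
      Matrix.single i j (s * y) := by
    rw [mul_sub, s1 i i j i _ _ h, Matrix.single_mul_single_same, sub_zero]
  have h2 : (Matrix.single i j y - Matrix.single j i (star y)) * Matrix.single i i s =
      -Matrix.single j i (star y * s) := by
    rw [sub_mul, s1 i j i i _ _ h.symm, Matrix.single_mul_single_same, zero_sub]
  have h3 : Matrix.single i j (s * y) * Matrix.single i i s = 0 := s1 _ _ _ _ _ _ h.symm
  have h4 : Matrix.single j i (star y * s) *
      (Matrix.single i j y - Matrix.single j i (star y) - Matrix.single j j (star y * s * y)) =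
      Matrix.single j j (star y * s * y) := by
    rw [mul_sub, mul_sub, s1 j i j i _ _ h, s1 j i j j _ _ h, Matrix.single_mul_single_same,
      sub_zero, sub_zero]
  have h5 : star (s * y) = -(star y * s) := by rw [star_mul, hs, mul_neg]
  apply Units.ext
  rw [Units.val_mul, Units.val_mul, Units.val_mul, lev_val, up_val, up_val, lo_val, lo_val]
  simp only [Matrix.fromBlocks_multiply]
  rw [e1, e2, Matrix.conjTranspose_sub, Matrix.conjTranspose_one, Matrix.conjTranspose_single, h5]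
  simp only [mul_one, one_mul, mul_zero, add_zero, zero_add, mul_neg, neg_mul, add_mul, h1, h2, h3,
    h4]
  congr 1
  · simp
  · simp
  · simp
  · rw [← Matrix.single_neg]
    abel

/-- general ring: the elementary matrix `1 + s y e_ji` of the Levi subgroup, `s` skew -/
theorem lev_el_skew {P : Type*} [Ring P] [StarRing P] (s y : P) (hs : star s = -s) (i j : Fin 2)
    (h : i ≠ j) : lev (el i j h (s * y)) ∈ EU 1 (Fin 2) P := by
  have h1 : Sk 1 (Matrix.single i i s) := by
    unfold Sk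
    rw [Matrix.conjTranspose_single, hs, one_smul, ← Matrix.single_neg]
  have h2 : Sk 1 (Matrix.single i j y - Matrix.single j i (star y)) := by
    unfold Sk
    rw [Matrix.conjTranspose_sub, Matrix.conjTranspose_single, Matrix.conjTranspose_single,
      star_star, one_smul, neg_sub]
  have h3 : Sk 1 (Matrix.single j j (star y * s * y)) := by
    unfold Sk
    rw [Matrix.conjTranspose_single, star_mul, star_mul, star_star, hs, one_smul, neg_mul, mul_neg,
      ← mul_assoc, Matrix.single_neg]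
  rw [lev_el_skew_eq s y hs i j h]
  refine mul_mem (mul_mem (mul_mem (up_mem h1) (lo_mem h2)) (up_mem h1.neg)) (lo_mem ?_)
  rw [sub_eq_add_neg _ (Matrix.single j j (star y * s * y))]
  exact (h2.add h3.neg).neg

/-- elementary matrices of the Levi subgroup, product ring -/
theorem lev_el_two {ι : Type*} {N : ι → ℕ} {R Λ : ι → Type*} [∀ i, CommRing (R i)]
    [∀ i, IsLocalization.Away (N i : ℤ) (R i)] [∀ i, Ring (Λ i)] [∀ i, StarRing (Λ i)]
    [∀ i, Algebra (R i) (Λ i)] [∀ i, Module.Free (R i) (Λ i)] [∀ i, Module.Finite (R i) (Λ i)]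
    (hN : ∀ i, N i ≠ 0) (Q : ∀ i, QAlg (N i) (R i) (Λ i)) (hQ : ∀ i x, star x = (Q i).conj x)
    (i j : Fin 2) (h : i ≠ j) (x : ∀ i, Λ i) : lev (el i j h x) ∈ EU 1 (Fin 2) (∀ i, Λ i) := by
  choose s₁ s₂ y₁ y₂ h1 h2 h3 using fun i => pure_gen (hN i) (Q i)
  have hst : ∀ s : ∀ i, Λ i, (∀ i, (Q i).T (s i) = 0) → star s = -s := by
    intro s hs
    funext k
    rw [Pi.star_apply, hQ, Choice.conj_eq (Q k), hs k, map_zero, zero_sub, Pi.neg_apply]
  have hx : x = s₁ * (y₁ * x) + s₂ * (y₂ * x) := by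
    rw [← mul_assoc, ← mul_assoc, ← add_mul]
    have : s₁ * y₁ + s₂ * y₂ = 1 := funext h3
    rw [this, one_mul]
  rw [hx, el_add, map_mul]
  exact mul_mem (lev_el_skew _ _ (hst _ h1) i j h) (lev_el_skew _ _ (hst _ h2) i j h)

/-- `EUL = EU` for two planes -/
theorem EUL_two {P : Type*} [Ring P] [StarRing P]
    (hL : ∀ (i j : Fin 2) (h : i ≠ j) (x : P), lev (el i j h x) ∈ EU 1 (Fin 2) P) :
    EUL 1 (Fin 2) P = EU 1 (Fin 2) P := by
  refine le_antisymm (sup_le le_rfl ?_) EU_le_EUL
  rw [Subgroup.map_le_iff_le_comap, E, Subgroup.closure_le]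
  rintro _ ⟨i, j, h, x, rfl⟩
  exact hL i j h x

end E1

end BWE
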