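import Pool.Agent.BWE.Norm

/-!
# Two hyperbolic planes, type `C`: multiplicativity modulo `H4` (helper56)
-/

namespace BWE

open Matrix
open BW hiding star
open BWC

theorem group_aux {G : Type*} [Group G] (E : Subgroup G) (a b c g : G)
    (ha : ∀ e ∈ E, a * e * a⁻¹ ∈ E) (hb : ∀ e ∈ E, b * e * b⁻¹ ∈ E)
    (hc : ∀ e ∈ E, c * e * c⁻¹ ∈ E) (hg : ∀ e ∈ E, g * e * g⁻¹ ∈ E)
    {e₁ e₂ e₃ e₄ e₅ : G} (h₁ : e₁ ∈ E) (h₂ : e₂ ∈ E) (h₃ : e₃ ∈ E) (h₄ : e₄ ∈ E) (h₅ : e₅ ∈ E)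
    (h : c * e₁ * g * e₂ = a * e₃ * b * e₄ * g * e₅) : a * b * c⁻¹ ∈ E := by
  have k1 : a * e₃ * a⁻¹ ∈ E := ha _ h₃
  have k2 : a * (b * e₄ * b⁻¹) * a⁻¹ ∈ E := ha _ (hb _ h₄)
  have k3 : c * e₁ * c⁻¹ ∈ E := hc _ h₁
  have k4 : c * (g * (e₂ * e₅⁻¹) * g⁻¹) * c⁻¹ ∈ E := hc _ (hg _ (mul_mem h₂ (inv_mem h₅)))
  have e : a * b * c⁻¹ = (a * (b * e₄ * b⁻¹) * a⁻¹)⁻¹ * (a * e₃ * a⁻¹)⁻¹ * (c * e₁ * c⁻¹) *
      (c * (g * (e₂ * e₅⁻¹) * g⁻¹) * c⁻¹) := by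
    have h' : c * e₁ * g * e₂ * e₅⁻¹ = a * e₃ * b * e₄ * g := by
      rw [h]; group
    calc a * b * c⁻¹ = (a * (b * e₄ * b⁻¹) * a⁻¹)⁻¹ * (a * e₃ * a⁻¹)⁻¹ *
          (a * e₃ * b * e₄ * g) * g⁻¹ * c⁻¹ := by group
      _ = _ := by rw [← h']; group
  rw [e]
  exact mul_mem (mul_mem (mul_mem (inv_mem k2) (inv_mem k1)) k3) k4

section E3

variable {P : Type*} [Ring P] [StarRing P]

theorem EUL_eq_two (hL : ∀ (i j : Fin 2) (h : i ≠ j) (x : P), lev (el i j h x) ∈ EU 1 (Fin 2) P) :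
    EUL 1 (Fin 2) P = EU 1 (Fin 2) P := by
  refine le_antisymm (sup_le le_rfl ?_) EU_le_EUL
  rw [Subgroup.map_le_iff_le_comap, E, Subgroup.closure_le]
  rintro _ ⟨i, j, h, x, rfl⟩
  exact hL i j h x

/-- the planes are exchanged by `lev W` -/
theorem pt_one_eq (g : (Matrix (Unit ⊕ Unit) (Unit ⊕ Unit) P)ˣ) :
    embU (pt (1 : Fin 2)) g = lev W * embU (pt (0 : Fin 2)) g * (lev W)⁻¹ := by
  rw [eq_mul_inv_iff_mul_eq]
  have hW : (!![0, 1; -1, 0] : Matrix (Fin 2) (Fin 2) P)ᴴ = !![0, -1; 1, 0] := by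
    ext i j
    fin_cases i <;> fin_cases j <;> simp
  ext1
  rw [Units.val_mul, Units.val_mul, embU_pt_val, pt_val, fin2_pt_one, fin2_pt_one,
    fin2_single_one, fin2_single_one, lev_val, W_val, W_inv_val, hW, Matrix.fromBlocks_multiply,
    Matrix.fromBlocks_multiply]
  congr 1 <;> ext i j <;> fin_cases i <;> fin_cases j <;> simp

variable {ι : Type*} {N : ι → ℕ} {R Λ : ι → Type*} [∀ i, CommRing (R i)] [∀ i, Ring (Λ i)]
  [∀ i, Algebra (R i) (Λ i)] (Q : ∀ i, QAlg (N i) (R i) (Λ i)) [∀ i, StarRing (Λ i)]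
  (hQ : ∀ i x, star x = (Q i).conj x)

omit [StarRing P] in
theorem W_mem_E : (W : (Matrix (Fin 2) (Fin 2) P)ˣ) ∈ E (Fin 2) P :=
  mul_mem (mul_mem (el_mem _ _ _ _) (el_mem _ _ _ _)) (el_mem _ _ _ _)

/-- `c` is pure, of norm prime to `r` -/
def PRel (r : ∀ i, R i) (c : ∀ i, Λ i) : Prop :=
  (∀ i, (Q i).T (c i) = 0) ∧ ∃ α β : ∀ i, R i, α * nn Q c + β * r = 1

include hQ in
theorem PRel.next {r : ∀ i, R i} {c x : ∀ i, Λ i} (h : PRel Q r c)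
    (hx : ∃ α β : ∀ i, R i, α * nn Q x + β * r = 1) : PRel Q r (star x * c * x) := by
  obtain ⟨hc, α, β, hαβ⟩ := h
  obtain ⟨αx, βx, hx⟩ := hx
  refine ⟨fun i => ?_, αx ^ 2 * α, βx * (1 + αx * nn Q x) * (α * nn Q c) + β, ?_⟩
  · have h3 : star (star x * c * x) = -(star x * c * x) := by
      rw [star_mul, star_mul, star_star, star_pure Q hQ hc, neg_mul, mul_neg, mul_assoc]
    have h4 := congrFun h3 i
    change star ((star x * c * x) i) = -((star x * c * x) i) at h4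
    rw [hQ] at h4
    have h5 := (Q i).add_conj ((star x * c * x) i)
    rw [h4, add_neg_cancel] at h5
    exact (Q i).inj (by rw [← h5, map_zero])
  · rw [nn_mul, nn_mul, nn_star Q hQ]
    linear_combination ((1 + αx * nn Q x) * (α * nn Q c)) * hx + hαβ

include hQ in
theorem PRel.exists_isom {r : ∀ i, R i} {c : ∀ i, Λ i} (h : PRel Q r c) :
    ∃ g ∈ UG 1 Unit (∀ i, Λ i), g.val (Sum.inl ()) (Sum.inl ()) = cen r ∧
      g.val (Sum.inr ()) (Sum.inl ()) = c := by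
  obtain ⟨hc, α, β, hαβ⟩ := h
  exact ⟨ym Q c r α β hc hαβ, ym_mem_UG Q hQ _ _ _ _ _ _, rfl, rfl⟩

include hQ in
/-- **multiplicativity** of the classes of the matrices with the data `(r, x | x, r)` -/
theorem mult (hL : ∀ (i j : Fin 2) (h : i ≠ j) (x : ∀ i, Λ i),
      lev (el i j h x) ∈ EU 1 (Fin 2) (∀ i, Λ i))
    (r : ∀ i, R i) (hr : ∃ (c : ∀ i, Λ i) (α β : ∀ i, R i), (∀ i, (Q i).T (c i) = 0) ∧
      α * nn Q c + β * r = 1) (x y : ∀ i, Λ i)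
    (A B C : (Matrix (Fin 2) (Fin 2) (∀ i, Λ i))ˣ) (hA : HasData A (cen r) x x (cen r))
    (hB : HasData B (cen r) y y (cen r)) (hC : HasData C (cen r) (x * y) (x * y) (cen r)) :
    A * B * C⁻¹ ∈ H4 (∀ i, Λ i) := by
  obtain ⟨c, α, β, hc, hαβ⟩ := hr
  have p0 : PRel Q r c := ⟨hc, α, β, hαβ⟩
  have hx : ∃ α β : ∀ i, R i, α * nn Q x + β * r = 1 :=
    exists_rel Q (by rw [add_comm]; exact hA.rel.1)
  have hy : ∃ α β : ∀ i, R i, α * nn Q y + β * r = 1 :=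
    exists_rel Q (by rw [add_comm]; exact hB.rel.1)
  have p1 := p0.next Q hQ hx
  have p2 := p1.next Q hQ hy
  obtain ⟨g, hg, ga, gc⟩ := p0.exists_isom Q hQ
  obtain ⟨gA, hgA, gAa, gAc⟩ := p1.exists_isom Q hQ
  obtain ⟨gAB, hgAB, gABa, gABc⟩ := p2.exists_isom Q hQ
  have hE := EUL_eq_two hL
  obtain ⟨e1, he1, e2, he2, r1⟩ := rel (by norm_num) A g gA hg hgA (by rw [ga, hA.h00])
    (by rw [gAa, hA.h1]) (by rw [gAc, gc, hA.h01, hA.h0, neg_neg])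
  obtain ⟨e3, he3, e4, he4, r2⟩ := rel (by norm_num) B gA gAB hgA hgAB (by rw [gAa, hB.h00])
    (by rw [gABa, hB.h1]) (by rw [gABc, gAc, hB.h01, hB.h0, neg_neg])
  obtain ⟨e5, he5, e6, he6, r3⟩ := rel (by norm_num) C g gAB hg hgAB (by rw [ga, hC.h00])
    (by rw [gABa, hC.h1]) (by rw [gABc, gc, hC.h01, hC.h0, neg_neg, star_mul]; simp only [mul_assoc])
  rw [hE] at he1 he2 he3 he4 he5 he6
  have hW : lev W ∈ EU 1 (Fin 2) (∀ i, Λ i) := by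
    rw [← hE]; exact lev_mem W_mem_E
  rw [pt_one_eq gA, r2, r3] at r1
  rw [mem_H4, map_mul, map_mul, map_inv]
  refine group_aux _ _ _ _ (embU (pt (1 : Fin 2)) gAB) (lev_conj_mem A) (lev_conj_mem B)
    (lev_conj_mem C) (conj_mem hL 1 gAB hgAB) he5 he6 (mul_mem he1 hW) he3
    (mul_mem (mul_mem he4 (inv_mem hW)) he2) ?_
  rw [r1]
  simp only [mul_assoc]

end E3

end BWE
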