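import Pool.Agent.BWE.Phi
import Pool.Agent.BWE.Mult
import Pool.Agent.BWE.Lev2
import Pool.Agent.BWE.CK

/-!
# Two hyperbolic planes, type `C`: the `T`-claim

Every isometry of one hyperbolic plane whose first column is `(r, c)` with `r` central and `c` pure
is elementary in two planes (product rings).
-/

namespace BWE

open Matrix
open BW hiding star
open BWC

section Int

variable {ι : Type*} {N : ι → ℕ} {R Λ : ι → Type*} [∀ i, CommRing (R i)]
  [∀ i, IsLocalization.Away (N i : ℤ) (R i)] [∀ i, Ring (Λ i)] [∀ i, StarRing (Λ i)]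
  [∀ i, Algebra (R i) (Λ i)] [∀ i, Module.Free (R i) (Λ i)] [∀ i, Module.Finite (R i) (Λ i)]
  (hN : ∀ i, N i ≠ 0) (Q : ∀ i, QAlg (N i) (R i) (Λ i))
  (hQ : ∀ i x, star x = (Q i).conj x)

omit [∀ i, StarRing (Λ i)] in
include hN in
/-- a pure element of norm prime to `r` in the product ring -/
theorem pure_coprime_pi (r : ∀ i, R i) (hr : ∀ i, r i ≠ 0) :
    ∃ (c : ∀ i, Λ i) (α β : ∀ i, R i), (∀ i, (Q i).T (c i) = 0) ∧ α * nn Q c + β * r = 1 := by
  choose c α β h1 h2 using fun i => pure_coprime (hN i) (Q i) (r i) (hr i)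
  exact ⟨c, α, β, h1, funext h2⟩

include hN hQ in
/-- integral matrices of determinant one are elementary in two planes -/
theorem int_mem (A : (Matrix (Fin 2) (Fin 2) (ι → ℤ))ˣ) (hA : A.val.det = 1) :
    Units.map ((RingHom.pi fun i => (Int.castRingHom (Λ i)).comp
        (Pi.evalRingHom (fun _ => ℤ) i) : (ι → ℤ) →+* ∀ i, Λ i).mapMatrix
          (m := Fin 2)).toMonoidHom A ∈ H4 (∀ i, Λ i) := by
  have hL := lev_el_two hN Q hQ
  set f : (ι → ℤ) →+* ∀ i, Λ i := RingHom.pi fun i => (Int.castRingHom (Λ i)).comp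
        (Pi.evalRingHom (fun _ => ℤ) i) with hf
  set F : (Matrix (Fin 2) (Fin 2) (ι → ℤ))ˣ →* (Matrix (Fin 2) (Fin 2) (∀ i, Λ i))ˣ :=
    Units.map (f.mapMatrix (m := Fin 2)).toMonoidHom with hF
  have hFv : ∀ (B : (Matrix (Fin 2) (Fin 2) (ι → ℤ))ˣ) (i j : Fin 2),
    (F B).val i j = f (B.val i j) := fun B i j => rfl
  have hFi : ∀ (B : (Matrix (Fin 2) (Fin 2) (ι → ℤ))ˣ) (i j : Fin 2),
    (F B)⁻¹.val i j = f (B⁻¹.val i j) := fun B i j => rfl
  have hinv : ∀ (B : (Matrix (Fin 2) (Fin 2) (ι → ℤ))ˣ), B.val.det = 1 →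
      B⁻¹.val = B.val.adjugate := by
    intro B hB
    rw [← one_mul B.val.adjugate, ← Units.val_one, ← inv_mul_cancel B, Units.val_mul, mul_assoc,
      Matrix.mul_adjugate, hB, one_smul, mul_one]
  change A ∈ (H4 (∀ i, Λ i)).comap F
  refine ck_abs _ inferInstance ?_ ?_ A hA
  · intro i j h x
    have h1 : F (el i j h x) = el i j h (f x) := by
      ext1
      change (1 + Matrix.single i j x).map f = 1 + Matrix.single i j (f x)
      rw [Matrix.map_add _ (map_add f), Matrix.map_one _ (map_zero f) (map_one f)]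
      congr 1
      ext a b
      rw [Matrix.map_apply, Matrix.single_apply, Matrix.single_apply]
      split_ifs <;> simp
    change F (el i j h x) ∈ H4 _
    rw [h1]
    exact mem_H4.2 (hL i j h _)
  · intro A B C hA hB hC hA0 hBA hCA hCB
    change F (A * B * C⁻¹) ∈ H4 _
    rw [map_mul, map_mul, map_inv]
    have hcen : f (A.val 0 0) = cen (fun i => ((A.val 0 0 i : ℤ) : R i)) := by
      funext i
      change ((A.val 0 0 i : ℤ) : Λ i) = algebraMap (R i) (Λ i) ((A.val 0 0 i : ℤ) : R i)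
      rw [map_intCast]
    have hdata : ∀ (B : (Matrix (Fin 2) (Fin 2) (ι → ℤ))ˣ), B.val.det = 1 →
        HasData (F B) (f (B.val 0 0)) (f (B.val 0 1)) (f (B.val 0 1)) (f (B.val 0 0)) := by
      intro B hB
      refine ⟨rfl, rfl, ?_, ?_⟩
      · rw [hFi, hinv B hB, Matrix.adjugate_fin_two]
        simp
      · rw [hFi, hinv B hB, Matrix.adjugate_fin_two]
        simp
    have dA := hdata A hA
    have dB := hdata B hB
    have dC := hdata C hC
    rw [hcen] at dA
    rw [hBA, hcen] at dB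
    rw [hCA, hcen, hCB, map_mul] at dC
    refine mult Q hQ hL _ (pure_coprime_pi hN Q _ fun i => ?_) _ _ _ _ _ dA dB dC
    have hC0 := Loc.charZero (N i) (R i) (hN i)
    exact Int.cast_ne_zero.2 (hA0 i)

include hN hQ in
/-- all matrices `UU` over `p` are elementary in two planes -/
theorem UU_mem_two (p : ι → ℕ)
    (ρ : ∀ i, Λ i →+* Matrix (Fin 2) (Fin 2) (ZMod (p i)))
    (hs : ∀ i, Function.Surjective (ρ i)) (hk : ∀ i, ∀ x, ρ i x = 0 → ∃ y, x = (p i : Λ i) * y)
    [∀ i, Fact (p i).Prime] (h5 : ∀ i, 5 ≤ p i) (z : ∀ i, Λ i) (k : ∀ i, R i)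
    (hz : ∀ i, (p i : R i) = 1 + k i * (Q i).n (z i))
    (hns : ∀ i, ¬ IsSquare (ρ i (z i)).det) (x : ∀ i, Λ i) (α β : ∀ i, R i)
    (h : α * nn Q x + β * pc R p = 1) : UU Q x (pc R p) α β h ∈ H4 (∀ i, Λ i) := by
  have hL := lev_el_two hN Q hQ
  have hr := pure_coprime_pi hN Q (pc R p) fun i => by
    have hC0 := Loc.charZero (N i) (R i) (hN i)
    exact Nat.cast_ne_zero.2 (Fact.out : (p i).Prime).ne_zero
  exact UU_mem_abs Q p (H4 _) inferInstance (fun i j h x => mem_H4.2 (hL i j h x))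
    (fun x y A B C dA dB dC => mult Q hQ hL _ hr x y A B C dA dB dC)
    (fun A hA => int_mem hN Q hQ A hA) ρ hs hk h5 z k hz hns x α β h

include hN hQ in
/-- the `T`-claim for two planes -/
theorem tclaim_two (x0 : Fin 2)
    (g : (Matrix (Unit ⊕ Unit) (Unit ⊕ Unit) (∀ i, Λ i))ˣ) (hg : g ∈ UG 1 Unit (∀ i, Λ i))
    (hch : ∀ i, ∀ (x : Λ i) (_ : (Q i).T x = 0) (r α β : R i) (_ : α * (Q i).n x + β * r = 1),
      ∃ (w z0 z1 : Λ i) (p : ℕ) (k k0 k1 : R i), (Q i).T w = 0 ∧ (Q i).T z0 = 0 ∧ (Q i).T z1 = 0 ∧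
      p.Prime ∧ 5 ≤ p ∧ ¬ p ∣ N i ∧
      (p : R i) = r + (Q i).n (x + r • w) * k ∧ (p : R i) = 1 + (Q i).n z0 * k0 ∧
      (p : R i) = 1 + (Q i).n z1 * k1 ∧
      ∀ ρ : Λ i →+* Matrix (Fin 2) (Fin 2) (ZMod p),
        (∀ y, ρ (algebraMap (R i) (Λ i) ((Q i).n y)) =
          (ρ y).det • (1 : Matrix (Fin 2) (Fin 2) (ZMod p))) →
        IsSquare (ρ z0).det ∧ ¬ IsSquare (ρ z1).det)
    (r : ∀ i, R i) (h1 : g.val (Sum.inl ()) (Sum.inl ()) = cen r)
    (h2 : ∀ i, (Q i).T (g.val (Sum.inr ()) (Sum.inl ()) i) = 0) :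
    embU (pt x0) g ∈ EU 1 (Fin 2) (∀ i, Λ i) := by
  classical
  obtain ⟨α, β, hαβ⟩ := exists_rel_col Q hQ g r h1
  obtain ⟨c, hc⟩ : ∃ c, c = g.val (Sum.inr ()) (Sum.inl ()) := ⟨_, rfl⟩
  rw [← hc] at h2 hαβ
  choose w z0 z1 p k k0 k1 hw hz0 hz1 hp h5 hpN e1 e2 e3 e4 using
    fun i => hch i (c i) (h2 i) (r i) (α i) (β i) (congrFun hαβ i)
  have : ∀ i, Fact (p i).Prime := fun i => ⟨hp i⟩
  obtain ⟨c', hc'⟩ : ∃ c', c' = c + cen r * w := ⟨_, rfl⟩
  have hc'i : ∀ i, c i + r i • w i = c' i := by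
    intro i
    rw [hc', Algebra.smul_def]; rfl
  have hcT : ∀ i, (Q i).T (c' i) = 0 := by
    intro i
    rw [← hc'i, map_add, map_smul, h2 i, hw i, smul_zero, add_zero]
  have s1 : Sk 1 (cst w) := Sk_cst (star_pure Q hQ hw)
  have s2 : Sk 1 (cst (-(cen k * c'))) := Sk_cst (by
    rw [star_neg, star_mul, star_cen Q hQ, star_pure Q hQ hcT, neg_mul, cen_comm])
  obtain ⟨g1, hg1⟩ : ∃ g1, g1 = up (cst (-(cen k * c'))) * (lo (cst w) * g) := ⟨_, rfl⟩
  have hg1' : g1 ∈ UG 1 Unit (∀ i, Λ i) := by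
    rw [hg1]; exact mul_mem (up_mem_UG s2) (mul_mem (lo_mem_UG (by norm_num) s1) hg)
  have a1 : g1.val (Sum.inl ()) (Sum.inl ()) = cen (pc R p) := by
    rw [hg1, up_mul_inl, lo_mul_inl, lo_mul_inr, h1, ← hc, ← cen_comm r w, ← hc', neg_mul,
      mul_assoc, pure_mul_self Q hcT, mul_neg, neg_neg, ← cen_mul, ← cen_add]
    congr 1
    funext i
    change r i + k i * (Q i).n (c' i) = (p i : R i)
    rw [e1 i, hc'i, mul_comm (k i)]
  have c1 : g1.val (Sum.inr ()) (Sum.inl ()) = c' := by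
    rw [hg1, up_mul_inr, lo_mul_inr, h1, ← hc, ← cen_comm r w, ← hc']
  have key : embU (pt x0) g1 ∈ EU 1 (Fin 2) (∀ i, Λ i) := by
    obtain ⟨α', β', hαβ'⟩ := exists_rel_col Q hQ g1 (pc R p) a1
    rw [c1] at hαβ'
    choose ρ hs hk hd using fun i => (Q i).fibre (p i) (hp i) (hpN i)
    have hphi : ∀ i, Loc.phi (N i) (R i) (hp i) (hpN i) (p i : R i) = 0 := by
      intro i
      rw [Loc.phi_eq_zero_iff]
    have hdc : ∀ i, (ρ i (c' i)).det ≠ 0 := by
      intro i h0
      rw [Choice.det_rho (Q i) (hp i) (hpN i) (ρ i) (hd i)] at h0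
      have h3 := congrArg (Loc.phi (N i) (R i) (hp i) (hpN i)) (congrFun hαβ' i)
      change Loc.phi (N i) (R i) (hp i) (hpN i) (α' i * (Q i).n (c' i) + β' i * (p i : R i)) =
        Loc.phi (N i) (R i) (hp i) (hpN i) 1 at h3
      rw [map_add, map_mul, map_mul, h0, hphi, mul_zero, mul_zero, add_zero, map_one] at h3
      exact zero_ne_one h3
    have hdz : ∀ (i : ι) (z : Λ i) (kz : R i), (p i : R i) = 1 + (Q i).n z * kz →
        (ρ i z).det ≠ 0 := by
      intro i z kz h h0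
      rw [Choice.det_rho (Q i) (hp i) (hpN i) (ρ i) (hd i)] at h0
      have h3 := congrArg (Loc.phi (N i) (R i) (hp i) (hpN i)) h
      rw [hphi, map_add, map_mul, h0, zero_mul, add_zero, map_one] at h3
      exact zero_ne_one h3
    -- the choice of `z`
    obtain ⟨z, kz, hz, hkz, hsq⟩ : ∃ (z : ∀ i, Λ i) (kz : ∀ i, R i), (∀ i, (Q i).T (z i) = 0) ∧
        (∀ i, (p i : R i) = 1 + (Q i).n (z i) * kz i) ∧
        ∀ i, (IsSquare (ρ i (c' i)).det ↔ IsSquare (ρ i (z i)).det) := by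
      refine ⟨fun i => if IsSquare (ρ i (c' i)).det then z0 i else z1 i,
        fun i => if IsSquare (ρ i (c' i)).det then k0 i else k1 i, fun i => ?_, fun i => ?_,
        fun i => ?_⟩
      · dsimp only; split_ifs
        · exact hz0 i
        · exact hz1 i
      · dsimp only; split_ifs
        · exact e2 i
        · exact e3 i
      · dsimp only; split_ifs with h
        · exact ⟨fun _ => (e4 i (ρ i) (hd i)).1, fun _ => h⟩
        · exact ⟨fun h' => absurd h' h, fun h' => absurd h' (e4 i (ρ i) (hd i)).2⟩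
    have hp2 : ∀ i, p i ≠ 2 := fun i => by have := h5 i; omega
    choose ww hww using fun i => congr_adj (hp2 i) (ρ i (c' i)) (ρ i (z i))
      (by rw [trace_rho (Q i) (hp i) (hpN i) (ρ i) (hd i), hcT i, map_zero])
      (by rw [trace_rho (Q i) (hp i) (hpN i) (ρ i) (hd i), hz i, map_zero]) (hdc i)
      (exists_sq (hp2 i) (hdc i) (hdz i _ _ (hkz i)) (hsq i))
    choose W hW using fun i => hs i (ww i).val
    obtain ⟨αW, βW, hWr⟩ := exists_ab Q p ρ hs hk W ww hW
    have hUH := UU_mem_two hN Q hQ p ρ hs hk h5 z1 k1 (fun i => by rw [e3 i, mul_comm])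
      (fun i => (e4 i (ρ i) (hd i)).2) W αW βW hWr
    obtain ⟨A, hA⟩ : ∃ A, A = UU Q W (pc R p) αW βW hWr := ⟨_, rfl⟩
    rw [← hA] at hUH
    have A00 : A.val 0 0 = cen (pc R p) := by rw [hA]; rfl
    have A01 : A.val 0 1 = W := by rw [hA]; rfl
    have A11' : A⁻¹.val 1 1 = cen (pc R p) := by rw [hA]; rfl
    have A01' : A⁻¹.val 0 1 = -W := by rw [hA]; rfl
    -- the second column
    obtain ⟨y, hy⟩ : ∃ y, y = star W * c' * W := ⟨_, rfl⟩
    have hyT : ∀ i, (Q i).T (y i) = 0 := by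
      intro i
      have h3 : star y = -y := by
        rw [hy, star_mul, star_mul, star_star, star_pure Q hQ hcT, neg_mul, mul_neg, mul_assoc]
      have h4 := congrFun h3 i
      change star (y i) = -(y i) at h4
      rw [hQ] at h4
      have h5 := (Q i).add_conj (y i)
      rw [h4, add_neg_cancel] at h5
      exact (Q i).inj (by rw [← h5, map_zero])
    have hyn : nn Q y = nn Q W * nn Q c' * nn Q W := by
      rw [hy, nn_mul, nn_mul, nn_star Q hQ]
    have hyr : (αW ^ 2 * α') * nn Q y + (βW * (1 + αW * nn Q W) * (α' * nn Q c') + β') *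
        pc R p = 1 := by
      rw [hyn]
      linear_combination ((1 + αW * nn Q W) * (α' * nn Q c')) * hWr + hαβ'
    obtain ⟨g', hg'⟩ : ∃ g', g' = ym Q y (pc R p) _ _ hyT hyr := ⟨_, rfl⟩
    have hg'U : g' ∈ UG 1 Unit (∀ i, Λ i) := by rw [hg']; exact ym_mem_UG Q hQ _ _ _ _ _ _
    have a2 : g'.val (Sum.inl ()) (Sum.inl ()) = cen (pc R p) := by rw [hg']; rfl
    have c2 : g'.val (Sum.inr ()) (Sum.inl ()) = y := by rw [hg']; rfl
    obtain ⟨E1, hE1, E2, hE2, hrel⟩ := rel (by norm_num) A g1 g' hg1' hg'U (by rw [a1, A00])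
      (by rw [a2, A11']) (by rw [c2, c1, A01, A01', neg_neg, hy])
    -- `g'` is elementary
    have hg'E : g' ∈ EU 1 Unit (∀ i, Λ i) := by
      choose d hd' using fun i => hk i (y i - z i) (by
        have h3 : y i = (Q i).conj (W i) * c' i * W i := by
          rw [hy]
          change star (W i) * c' i * W i = _
          rw [hQ]
        rw [map_sub, h3, map_mul, map_mul, rho_conj_adj (Q i) (hp i) (hpN i) (ρ i) (hd i), hW i,
          hww i, sub_self])
      have hdT : ∀ i, (Q i).T (d i) = 0 := by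
        intro i
        have hN : N i ≠ 0 := fun h0 => hpN i (h0 ▸ dvd_zero _)
        have h3 := congrArg (Q i).T (hd' i)
        have hD := Loc.isDomain (N i) (R i) hN
        have hC := Loc.charZero (N i) (R i) hN
        rw [map_sub, hyT i, hz i, sub_zero, ← map_natCast (algebraMap (R i) (Λ i)),
          ← Algebra.smul_def, map_smul, smul_eq_mul] at h3
        rcases mul_eq_zero.1 h3.symm with h4 | h4
        · exact absurd h4 (Nat.cast_ne_zero.2 (hp i).ne_zero)
        · exact h4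
      have s3 : Sk 1 (cst (-d)) := Sk_cst (by rw [star_neg, star_pure Q hQ hdT])
      have h3 := mem_EU_of_pure Q hQ (lo (cst (-d)) * g') (mul_mem (lo_mem_UG (by norm_num) s3) hg'U)
        z hz (pc R p) kz (by
          funext i
          change (p i : R i) = 1 + kz i * (Q i).n (z i)
          rw [hkz i, mul_comm]) (by rw [lo_mul_inl, a2]) (by
          rw [lo_mul_inr, a2, c2]
          funext i
          change y i + -(d i) * algebraMap (R i) (Λ i) (p i : R i) = z i
          rw [map_natCast, neg_mul, ← Nat.cast_comm, ← hd' i]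
          abel)
      exact (Subgroup.mul_mem_cancel_left _ (lo_mem s3)).1 h3
    -- embedding
    have hL := lev_el_two hN Q hQ
    let φ : Fin 2 ↪ Fin 2 := (Equiv.swap (0 : Fin 2) x0).toEmbedding
    have hφ : (pt (0 : Fin 2)).trans φ = pt x0 := by
      ext u
      change (((Equiv.swap (0 : Fin 2) x0) 0 : Fin 2) : ℕ) = (x0 : ℕ)
      rw [Equiv.swap_apply_left]
    have h3 := congrArg (embU φ) hrel
    rw [embU_embU, hφ, map_mul, map_mul, map_mul, embU_embU] at h3
    have hE := EUL_two hL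
    rw [hE] at hE1 hE2
    rw [h3]
    exact mul_mem (mul_mem (mul_mem (embU_mem_EU φ (mem_H4.1 hUH)) (embU_mem_EU φ hE1))
      (embU_mem_EU _ hg'E)) (embU_mem_EU φ hE2)
  rw [hg1, map_mul, map_mul] at key
  exact (Subgroup.mul_mem_cancel_left _ (embU_mem_EU _ (lo_mem s1))).1
    ((Subgroup.mul_mem_cancel_left _ (embU_mem_EU _ (up_mem s2))).1 key)

end Int

end BWE
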