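import Pool.Agent.BWC.Fam
import Pool.Agent.BWE.TClaim

/-!
# Two hyperbolic planes, type `C`: the main theorem
-/

namespace BWE

open Matrix
open BW hiding star
open BWC

section Two

variable {ι : Type*} {N : ι → ℕ} {R Λ : ι → Type} [∀ i, CommRing (R i)]
  [∀ i, IsLocalization.Away (N i : ℤ) (R i)] [∀ i, Ring (Λ i)] [∀ i, StarRing (Λ i)]
  [∀ i, Algebra (R i) (Λ i)] [∀ i, Module.Free (R i) (Λ i)] [∀ i, Module.Finite (R i) (Λ i)]
  {n : Type*} [DecidableEq n] [Fintype n]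
  (hN : ∀ i, N i ≠ 0) (Q : ∀ i, QAlg (N i) (R i) (Λ i)) (hQ : ∀ i x, star x = (Q i).conj x)
  (hT : ∀ (x0 : n) (g : (Matrix (Unit ⊕ Unit) (Unit ⊕ Unit) (∀ i, Λ i))ˣ),
    g ∈ UG 1 Unit (∀ i, Λ i) → ∀ r : ∀ i, R i, g.val (Sum.inl ()) (Sum.inl ()) = cen r →
    (∀ i, (Q i).T (g.val (Sum.inr ()) (Sum.inl ()) i) = 0) →
    embU (pt x0) g ∈ EU 1 n (∀ i, Λ i))

include hN hQ hT in
/-- every element of `U₂` becomes of the form of the `T`-claim -/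
theorem wm_mul_mem (x0 : n) (g : (Matrix (Unit ⊕ Unit) (Unit ⊕ Unit) (∀ i, Λ i))ˣ)
    (hg : g ∈ UG 1 Unit (∀ i, Λ i)) :
    ∃ e ∈ EU 1 Unit (∀ i, Λ i), embU (pt x0) (wm _ * (e * g)) ∈ EU 1 n (∀ i, Λ i) := by
  have hc := fun i => col_facts (Q i) (hQ i) (comp_mem_UG i hg) ()
  obtain ⟨a, ha⟩ : ∃ a, a = g.val (Sum.inl ()) (Sum.inl ()) := ⟨_, rfl⟩
  obtain ⟨c, hc'⟩ : ∃ c, c = g.val (Sum.inr ()) (Sum.inl ()) := ⟨_, rfl⟩
  simp only [Finset.univ_unique, PUnit.default_eq_unit, Finset.sum_singleton] at hc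
  choose s1 s2 s3 t1 t2 t3 h4 r hr using fun i => sec1 (hN i) (Q i) (a i) (c i)
    ((comp i g)⁻¹.val (Sum.inl ()) (Sum.inl ())) ((comp i g)⁻¹.val (Sum.inl ()) (Sum.inr ()))
    (by rw [ha, hc']; exact (hc i).1) (by
      have := (hc i).2
      rw [hQ] at this
      rw [ha, hc']; exact this)
  have k1 : Sk 1 (cst s1) := Sk_cst (star_pure Q hQ t1)
  have k2 : Sk 1 (cst s2) := Sk_cst (star_pure Q hQ t2)
  have k3 : Sk 1 (cst s3) := Sk_cst (star_pure Q hQ t3)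
  have hε : (1 : ℤ) * 1 = 1 := by norm_num
  refine ⟨lo (cst s3) * (up (cst s2) * lo (cst s1)),
    mul_mem (lo_mem k3) (mul_mem (up_mem k2) (lo_mem k1)), ?_⟩
  have hm := mul_mem (lo_mem_UG hε k3) (mul_mem (up_mem_UG k2) (mul_mem (lo_mem_UG hε k1) hg))
  rw [mul_assoc, mul_assoc]
  refine hT x0 _ (mul_mem (wm_mem_UG _) hm) r ?_ ?_
  · rw [wm_mul_inl, lo_mul_inr, up_mul_inr, up_mul_inl, lo_mul_inl, lo_mul_inr, ← ha, ← hc']
    funext i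
    exact hr i
  · intro i
    rw [wm_mul_inr, lo_mul_inl, up_mul_inl, lo_mul_inr, lo_mul_inl, ← ha, ← hc']
    exact h4 i

include hN hQ hT in
/-- one plane -/
theorem one_plane (x0 : n) (g : (Matrix (Unit ⊕ Unit) (Unit ⊕ Unit) (∀ i, Λ i))ˣ)
    (hg : g ∈ UG 1 Unit (∀ i, Λ i)) : embU (pt x0) g ∈ EU 1 n (∀ i, Λ i) := by
  have hw : embU (pt x0) (wm _) ∈ EU 1 n (∀ i, Λ i) := by
    obtain ⟨e, he, h⟩ := wm_mul_mem hN Q hQ hT x0 1 (one_mem _)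
    rw [mul_one, map_mul] at h
    exact (Subgroup.mul_mem_cancel_right _ (embU_mem_EU _ he)).1 h
  obtain ⟨e, he, h⟩ := wm_mul_mem hN Q hQ hT x0 g hg
  rw [map_mul, map_mul] at h
  exact (Subgroup.mul_mem_cancel_left _ (embU_mem_EU _ he)).1
    ((Subgroup.mul_mem_cancel_left _ hw).1 h)

end Two

section Fam

variable {ι : Type*} {N : ι → ℕ} {R Λ : ι → Type} [∀ i, CommRing (R i)]
  [∀ i, IsLocalization.Away (N i : ℤ) (R i)] [∀ i, Ring (Λ i)] [∀ i, StarRing (Λ i)]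
  [∀ i, Algebra (R i) (Λ i)] [∀ i, Module.Free (R i) (Λ i)] [∀ i, Module.Finite (R i) (Λ i)]

/-- `U = EU` over the product ring, given the `T`-claim and `EUL = EU` -/
theorem main_family (hN : ∀ i, N i ≠ 0) (Q : ∀ i, QAlg (N i) (R i) (Λ i))
    (hQ : ∀ i x, star x = (Q i).conj x) (k : ℕ)
    (hT : ∀ (x0 : Fin (k + 1)) (g : (Matrix (Unit ⊕ Unit) (Unit ⊕ Unit) (∀ i, Λ i))ˣ),
      g ∈ UG 1 Unit (∀ i, Λ i) → ∀ r : ∀ i, R i, g.val (Sum.inl ()) (Sum.inl ()) = cen r →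
      (∀ i, (Q i).T (g.val (Sum.inr ()) (Sum.inl ()) i) = 0) →
      embU (pt x0) g ∈ EU 1 (Fin (k + 1)) (∀ i, Λ i))
    (hE : EUL 1 (Fin (k + 1)) (∀ i, Λ i) = EU 1 (Fin (k + 1)) (∀ i, Λ i))
    (g : (Matrix (Fin (k + 1) ⊕ Fin (k + 1)) (Fin (k + 1) ⊕ Fin (k + 1)) (∀ i, Λ i))ˣ)
    (hg : g ∈ UG 1 (Fin (k + 1)) (∀ i, Λ i)) : g ∈ EU 1 (Fin (k + 1)) (∀ i, Λ i) := by
  obtain ⟨e, he, x0, g', hg', h⟩ := red_one hN Q hQ k g hg
  rw [← hE]
  refine (Subgroup.mul_mem_cancel_left _ he).1 ?_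
  rw [h]
  exact EU_le_EUL (one_plane hN Q hQ hT _ g' hg')

/-- `EUL = EU` over the product ring for at least two planes -/
theorem EUL_all (hN : ∀ i, N i ≠ 0) (Q : ∀ i, QAlg (N i) (R i) (Λ i))
    (hQ : ∀ i x, star x = (Q i).conj x) (m : ℕ) (hm : 2 ≤ m) :
    EUL 1 (Fin m) (∀ i, Λ i) = EU 1 (Fin m) (∀ i, Λ i) := by
  rcases hm.lt_or_eq with h | rfl
  · exact EUL_eq (by norm_num) (by rw [Fintype.card_fin]; exact h)
  · exact EUL_two (lev_el_two hN Q hQ)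

/-- the main theorem over the product ring for at least two planes -/
theorem main_all (hN : ∀ i, N i ≠ 0) (hrank : ∀ i, Module.finrank (R i) (Λ i) = 4)
    (Q : ∀ i, QAlg (N i) (R i) (Λ i)) (hQ : ∀ i x, star x = (Q i).conj x) (m : ℕ) (hm : 2 ≤ m)
    (g : (Matrix (Fin m ⊕ Fin m) (Fin m ⊕ Fin m) (∀ i, Λ i))ˣ)
    (hg : g ∈ UG 1 (Fin m) (∀ i, Λ i)) : g ∈ EU 1 (Fin m) (∀ i, Λ i) := by
  rcases hm.lt_or_eq with h | rfl
  · exact BWC.main_family (fun i Q x hx r α β h => choice_pure (hN i) (hrank i) Q x hx r α β h)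
      hN Q hQ m h g hg
  · exact main_family hN Q hQ 1 (fun x0 g hg r h1 h2 => tclaim_two hN Q hQ x0 g hg
      (fun i x hx r α β h => choice_pure (hN i) (hrank i) (Q i) x hx r α β h) r h1 h2)
      (EUL_two (lev_el_two hN Q hQ)) g hg

end Fam

section Width

open Pointwise

/-- the uniform bound, given the main theorem over the product ring -/
theorem width_of (m : ℕ)
    (hmain : ∀ {ι : Type 1} (N : ι → ℕ) (R Λ : ι → Type) [∀ i, CommRing (R i)]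
      [∀ i, IsLocalization.Away (N i : ℤ) (R i)] [∀ i, Ring (Λ i)] [∀ i, StarRing (Λ i)]
      [∀ i, Algebra (R i) (Λ i)], (∀ i, N i ≠ 0) →
      (∀ i, IsQuaternionAzumaya (N i) (R i) (Λ i)) →
      (∀ i, ∀ x : Λ i, ∃ t : R i, x + star x = algebraMap (R i) (Λ i) t) →
      ∀ g ∈ UG 1 (Fin m) (∀ i, Λ i), g ∈ EU 1 (Fin m) (∀ i, Λ i)) :
    ∃ L : ℕ, ∀ (N : ℕ), N ≠ 0 → ∀ (R Λ : Type) [CommRing R]
    [IsLocalization.Away (N : ℤ) R] [Ring Λ] [StarRing Λ] [Algebra R Λ],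
    IsQuaternionAzumaya N R Λ → (∀ x : Λ, ∃ t : R, x + star x = algebraMap R Λ t) →
    (PM m Λ) ^ L = (UG 1 (Fin m) Λ : Set (Matrix (Fin m ⊕ Fin m) (Fin m ⊕ Fin m) Λ)ˣ) := by
  have h1 : famU (fun i : Dat m => i.g) ∈ UG 1 (Fin m) (∀ i : Dat m, i.Λ) :=
    mem_UG_of_comp fun i => by rw [comp_famU]; exact i.hg
  have h2 := hmain (fun i : Dat m => i.N) (fun i : Dat m => i.R) (fun i : Dat m => i.Λ)
    (fun i => i.hN) (fun i => i.az) (fun i => i.st) _ h1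
  generalize hX : famU (fun i : Dat m => i.g) = X at h2
  obtain ⟨L, hL⟩ := EU_bounded X h2
  refine ⟨L, fun N hN R Λ _ _ _ _ _ haz hst => Set.Subset.antisymm ?_ fun g hg => ?_⟩
  · intro g hg
    have h3 : ∀ (K : ℕ), ∀ g ∈ (PM m Λ) ^ K, g ∈ UG 1 (Fin m) Λ := by
      intro K
      induction K with
      | zero =>
        intro g hg
        rw [pow_zero, Set.mem_one] at hg
        rw [hg]
        exact one_mem _
      | succ K ih =>
        intro g hg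
        rw [pow_succ] at hg
        obtain ⟨a, ha, b, ⟨u, hu, v, hv, rfl⟩, rfl⟩ := hg
        exact mul_mem (ih a ha) (mul_mem (UP_le_UG hu) (UM_le_UG (by norm_num) hv))
    exact h3 L g hg
  · have h3 := hL ⟨N, hN, R, Λ, inferInstance, inferInstance, inferInstance, inferInstance,
      inferInstance, haz, hst, g, hg⟩
    rw [← hX, comp_famU] at h3
    exact h3

/-- **bounded width of the quaternion-unitary groups of type `C`**, `m ≥ 2` hyperbolic planes -/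
theorem width_all (m : ℕ) (hm : 2 ≤ m) : ∃ L : ℕ, ∀ (N : ℕ), N ≠ 0 → ∀ (R Λ : Type) [CommRing R]
    [IsLocalization.Away (N : ℤ) R] [Ring Λ] [StarRing Λ] [Algebra R Λ],
    IsQuaternionAzumaya N R Λ → (∀ x : Λ, ∃ t : R, x + star x = algebraMap R Λ t) →
    (PM m Λ) ^ L = (UG 1 (Fin m) Λ : Set (Matrix (Fin m ⊕ Fin m) (Fin m ⊕ Fin m) Λ)ˣ) := by
  refine width_of m ?_
  intro ι N R Λ _ _ _ _ _ hN haz hst g hg
  have hfree : ∀ i, Module.Free (R i) (Λ i) := fun i => (haz i).free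
  have hfin : ∀ i, Module.Finite (R i) (Λ i) := fun i => (haz i).finite (hN i)
  have Q : ∀ i, QAlg (N i) (R i) (Λ i) := fun i => ((haz i).qalg (hN i)).some
  exact main_all hN (fun i => (haz i).rank) Q (fun i x => star_eq_conj (hN i) (Q i) (hst i) x)
    m hm g hg

theorem width_two : ∃ L : ℕ, ∀ (N : ℕ), N ≠ 0 → ∀ (R Λ : Type) [CommRing R]
    [IsLocalization.Away (N : ℤ) R] [Ring Λ] [StarRing Λ] [Algebra R Λ],
    IsQuaternionAzumaya N R Λ → (∀ x : Λ, ∃ t : R, x + star x = algebraMap R Λ t) →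
    (PM 2 Λ) ^ L = (UG 1 (Fin 2) Λ : Set (Matrix (Fin 2 ⊕ Fin 2) (Fin 2 ⊕ Fin 2) Λ)ˣ) :=
  width_all 2 le_rfl

end Width

end BWE
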