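import Pool.Agent.BWC.Fam

/-!
# Two hyperbolic planes, type `C`: the unitary groups of the planes normalise the elementary group
(helper56)
-/

namespace BWE

open Matrix
open BW hiding star
open BWC

section Swap

variable {P : Type*} [Ring P]

/-- the exchange of the two planes -/
def sw : Fin 2 ↪ Fin 2 := (Equiv.swap (0 : Fin 2) 1).toEmbedding

theorem sw_sw (x : Fin 2) : sw (sw x) = x := by
  fin_cases x <;> rfl

end Swap

section E2

variable {P : Type*} [Ring P] [StarRing P]

theorem pt_val (g : (Matrix (Unit ⊕ Unit) (Unit ⊕ Unit) P)ˣ) :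
    (embU (pt (0 : Fin 2)) g).val = Matrix.fromBlocks
      !![g.val (Sum.inl ()) (Sum.inl ()), 0; 0, 1]
      !![g.val (Sum.inl ()) (Sum.inr ()), 0; 0, 0]
      !![g.val (Sum.inr ()) (Sum.inl ()), 0; 0, 0]
      !![g.val (Sum.inr ()) (Sum.inr ()), 0; 0, 1] := by
  rw [embU_pt_val, fin2_pt_zero, fin2_pt_zero, fin2_single_zero, fin2_single_zero]

/-- the relations between the entries of an isometry of one plane -/
theorem entries {g : (Matrix (Unit ⊕ Unit) (Unit ⊕ Unit) P)ˣ} (hg : g ∈ UG 1 Unit P) :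
    star (g.val (Sum.inl ()) (Sum.inl ())) * g.val (Sum.inr ()) (Sum.inl ()) +
      star (g.val (Sum.inr ()) (Sum.inl ())) * g.val (Sum.inl ()) (Sum.inl ()) = 0 ∧
    star (g.val (Sum.inl ()) (Sum.inl ())) * g.val (Sum.inr ()) (Sum.inr ()) +
      star (g.val (Sum.inr ()) (Sum.inl ())) * g.val (Sum.inl ()) (Sum.inr ()) = 1 ∧
    star (g.val (Sum.inl ()) (Sum.inr ())) * g.val (Sum.inr ()) (Sum.inl ()) +
      star (g.val (Sum.inr ()) (Sum.inr ())) * g.val (Sum.inl ()) (Sum.inl ()) = 1 ∧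
    star (g.val (Sum.inl ()) (Sum.inr ())) * g.val (Sum.inr ()) (Sum.inr ()) +
      star (g.val (Sum.inr ()) (Sum.inr ())) * g.val (Sum.inl ()) (Sum.inr ()) = 0 := by
  have hb : g.val = Matrix.fromBlocks g.val.toBlocks₁₁ g.val.toBlocks₁₂ g.val.toBlocks₂₁
    g.val.toBlocks₂₂ := (Matrix.fromBlocks_toBlocks _).symm
  obtain ⟨h1, h2, h3, h4⟩ := (mem_UG_blocks hb).1 hg
  refine ⟨?_, ?_, ?_, ?_⟩
  · have e := congrFun (congrFun h1 ()) ()
    simpa [Matrix.mul_apply, Matrix.toBlocks₁₁, Matrix.toBlocks₂₁] using e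
  · have e := congrFun (congrFun h2 ()) ()
    simpa [Matrix.mul_apply, Matrix.toBlocks₁₁, Matrix.toBlocks₂₁, Matrix.toBlocks₁₂,
      Matrix.toBlocks₂₂] using e
  · have e := congrFun (congrFun h3 ()) ()
    simpa [Matrix.mul_apply, Matrix.toBlocks₁₁, Matrix.toBlocks₂₁, Matrix.toBlocks₁₂,
      Matrix.toBlocks₂₂] using e
  · have e := congrFun (congrFun h4 ()) ()
    simpa [Matrix.mul_apply, Matrix.toBlocks₁₂, Matrix.toBlocks₂₂] using e

theorem lev_el10_val (x : P) : (lev (el (1 : Fin 2) 0 (by decide) x)).val =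
    Matrix.fromBlocks !![1, 0; x, 1] 0 0 !![1, -star x; 0, 1] := by
  rw [lev_val, el_inv, el_val, el_val]
  congr 1
  · ext i j; fin_cases i <;> fin_cases j <;> simp
  · ext i j; fin_cases i <;> fin_cases j <;> simp

theorem lev_el01_val (x : P) : (lev (el (0 : Fin 2) 1 (by decide) x)).val =
    Matrix.fromBlocks !![1, x; 0, 1] 0 0 !![1, 0; -star x, 1] := by
  rw [lev_val, el_inv, el_val, el_val]
  congr 1
  · ext i j; fin_cases i <;> fin_cases j <;> simp
  · ext i j; fin_cases i <;> fin_cases j <;> simp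

/-- the common form of the two products with `up` -/
theorem prod_up (g : (Matrix (Unit ⊕ Unit) (Unit ⊕ Unit) P)ˣ) (p q t : P) :
    (lev (el (1 : Fin 2) 0 (by decide) p) * up !![0, -star q; q, t] *
      embU (pt (0 : Fin 2)) g).val = Matrix.fromBlocks
      !![g.val (Sum.inl ()) (Sum.inl ()), 0;
        p * g.val (Sum.inl ()) (Sum.inl ()) + q * g.val (Sum.inr ()) (Sum.inl ()), 1]
      !![g.val (Sum.inl ()) (Sum.inr ()), -star q;
        p * g.val (Sum.inl ()) (Sum.inr ()) + q * g.val (Sum.inr ()) (Sum.inr ()), t - p * star q]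
      !![g.val (Sum.inr ()) (Sum.inl ()), 0; 0, 0]
      !![g.val (Sum.inr ()) (Sum.inr ()), -star p; 0, 1] := by
  rw [Units.val_mul, Units.val_mul, lev_el10_val, up_val, pt_val, Matrix.fromBlocks_multiply,
    Matrix.fromBlocks_multiply]
  congr 1 <;> ext i j <;> fin_cases i <;> fin_cases j <;> simp
  abel

theorem prod_lo (g : (Matrix (Unit ⊕ Unit) (Unit ⊕ Unit) P)ˣ) (p q t : P) :
    (lev (el (0 : Fin 2) 1 (by decide) p) * lo !![0, q; -star q, t] *
      embU (pt (0 : Fin 2)) g).val = Matrix.fromBlocks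
      !![g.val (Sum.inl ()) (Sum.inl ()), p; 0, 1]
      !![g.val (Sum.inl ()) (Sum.inr ()), 0; 0, 0]
      !![g.val (Sum.inr ()) (Sum.inl ()), q;
        -(star p * g.val (Sum.inr ()) (Sum.inl ()) + star q * g.val (Sum.inl ()) (Sum.inl ())),
        t - star p * q]
      !![g.val (Sum.inr ()) (Sum.inr ()), 0;
        -(star p * g.val (Sum.inr ()) (Sum.inr ()) + star q * g.val (Sum.inl ()) (Sum.inr ())), 1] := by
  rw [Units.val_mul, Units.val_mul, lev_el01_val, lo_val, pt_val, Matrix.fromBlocks_multiply,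
    Matrix.fromBlocks_multiply]
  congr 1 <;> ext i j <;> fin_cases i <;> fin_cases j <;> simp
  all_goals abel

/-- conjugation of `lev (el 1 0 x)` -/
theorem conj_el10 {g : (Matrix (Unit ⊕ Unit) (Unit ⊕ Unit) P)ˣ} (hg : g ∈ UG 1 Unit P) (x : P) :
    ∃ p q t, star t = -t ∧ embU (pt (0 : Fin 2)) g * lev (el (1 : Fin 2) 0 (by decide) x) =
      lev (el (1 : Fin 2) 0 (by decide) p) * up !![0, -star q; q, t] *
      embU (pt (0 : Fin 2)) g := by
  obtain ⟨h1, h2, h3, h4⟩ := entries hg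
  set a := g.val (Sum.inl ()) (Sum.inl ()) with ha
  set b := g.val (Sum.inl ()) (Sum.inr ()) with hb
  set c := g.val (Sum.inr ()) (Sum.inl ()) with hc
  set d := g.val (Sum.inr ()) (Sum.inr ()) with hd
  refine ⟨x * star d, x * star b, x * star d * star (x * star b), ?_, ?_⟩
  · simp only [star_mul, star_star]
    have e : star b * d = -(star d * b) := eq_neg_of_add_eq_zero_left h4
    calc x * star b * (d * star x) = x * (star b * d) * star x := by simp only [mul_assoc]
      _ = _ := by rw [e]; simp only [mul_neg, neg_mul, mul_assoc]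
  · ext1
    rw [prod_up, Units.val_mul, pt_val, lev_el10_val, Matrix.fromBlocks_multiply]
    have e1 : x * star d * a + x * star b * c = x := by
      rw [mul_assoc, mul_assoc, ← mul_add, add_comm (star d * a), h3, mul_one]
    have e2 : x * star d * b + x * star b * d = 0 := by
      rw [mul_assoc, mul_assoc, ← mul_add, add_comm (star d * b), h4, mul_zero]
    rw [← ha, ← hb, ← hc, ← hd, e1, e2]
    congr 1 <;> ext i j <;> fin_cases i <;> fin_cases j <;> simp

/-- conjugation of `up` -/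
theorem conj_up {g : (Matrix (Unit ⊕ Unit) (Unit ⊕ Unit) P)ˣ} (hg : g ∈ UG 1 Unit P) (x : P) :
    ∃ p q t, star t = -t ∧ embU (pt (0 : Fin 2)) g * up !![0, -star x; x, 0] =
      lev (el (1 : Fin 2) 0 (by decide) p) * up !![0, -star q; q, t] *
      embU (pt (0 : Fin 2)) g := by
  obtain ⟨h1, h2, h3, h4⟩ := entries hg
  set a := g.val (Sum.inl ()) (Sum.inl ()) with ha
  set b := g.val (Sum.inl ()) (Sum.inr ()) with hb
  set c := g.val (Sum.inr ()) (Sum.inl ()) with hc
  set d := g.val (Sum.inr ()) (Sum.inr ()) with hd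
  refine ⟨x * star c, x * star a, x * star c * star (x * star a), ?_, ?_⟩
  · simp only [star_mul, star_star]
    have e : star a * c = -(star c * a) := eq_neg_of_add_eq_zero_left h1
    calc x * star a * (c * star x) = x * (star a * c) * star x := by simp only [mul_assoc]
      _ = _ := by rw [e]; simp only [mul_neg, neg_mul, mul_assoc]
  · ext1
    rw [prod_up, Units.val_mul, pt_val, up_val, Matrix.fromBlocks_multiply]
    have e1 : x * star c * a + x * star a * c = 0 := by
      rw [mul_assoc, mul_assoc, ← mul_add, add_comm (star c * a), h1, mul_zero]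
    have e2 : x * star c * b + x * star a * d = x := by
      rw [mul_assoc, mul_assoc, ← mul_add, add_comm (star c * b), h2, mul_one]
    rw [← ha, ← hb, ← hc, ← hd, e1, e2]
    congr 1 <;> ext i j <;> fin_cases i <;> fin_cases j <;> simp

/-- conjugation of `lev (el 0 1 x)` -/
theorem conj_el01 {g : (Matrix (Unit ⊕ Unit) (Unit ⊕ Unit) P)ˣ} (hg : g ∈ UG 1 Unit P) (x : P) :
    ∃ p q t, star t = -t ∧ embU (pt (0 : Fin 2)) g * lev (el (0 : Fin 2) 1 (by decide) x) =
      lev (el (0 : Fin 2) 1 (by decide) p) * lo !![0, q; -star q, t] *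
      embU (pt (0 : Fin 2)) g := by
  obtain ⟨h1, h2, h3, h4⟩ := entries hg
  set a := g.val (Sum.inl ()) (Sum.inl ()) with ha
  set b := g.val (Sum.inl ()) (Sum.inr ()) with hb
  set c := g.val (Sum.inr ()) (Sum.inl ()) with hc
  set d := g.val (Sum.inr ()) (Sum.inr ()) with hd
  refine ⟨a * x, c * x, star (a * x) * (c * x), ?_, ?_⟩
  · simp only [star_mul, star_star]
    have e : star c * a = -(star a * c) := eq_neg_of_add_eq_zero_right h1
    calc star x * star c * (a * x) = star x * (star c * a) * x := by simp only [mul_assoc]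
      _ = _ := by rw [e]; simp only [mul_neg, neg_mul, mul_assoc]
  · ext1
    rw [prod_lo, Units.val_mul, pt_val, lev_el01_val, Matrix.fromBlocks_multiply]
    have e1 : star (a * x) * c + star (c * x) * a = 0 := by
      rw [star_mul, star_mul, mul_assoc, mul_assoc, ← mul_add, h1, mul_zero]
    have e2 : star (a * x) * d + star (c * x) * b = star x := by
      rw [star_mul, star_mul, mul_assoc, mul_assoc, ← mul_add, h2, mul_one]
    rw [← ha, ← hb, ← hc, ← hd, e1, e2]
    congr 1 <;> ext i j <;> fin_cases i <;> fin_cases j <;> simp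

/-- conjugation of `lo` -/
theorem conj_lo {g : (Matrix (Unit ⊕ Unit) (Unit ⊕ Unit) P)ˣ} (hg : g ∈ UG 1 Unit P) (x : P) :
    ∃ p q t, star t = -t ∧ embU (pt (0 : Fin 2)) g * lo !![0, x; -star x, 0] =
      lev (el (0 : Fin 2) 1 (by decide) p) * lo !![0, q; -star q, t] *
      embU (pt (0 : Fin 2)) g := by
  obtain ⟨h1, h2, h3, h4⟩ := entries hg
  set a := g.val (Sum.inl ()) (Sum.inl ()) with ha
  set b := g.val (Sum.inl ()) (Sum.inr ()) with hb
  set c := g.val (Sum.inr ()) (Sum.inl ()) with hc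
  set d := g.val (Sum.inr ()) (Sum.inr ()) with hd
  refine ⟨b * x, d * x, star (b * x) * (d * x), ?_, ?_⟩
  · simp only [star_mul, star_star]
    have e : star d * b = -(star b * d) := eq_neg_of_add_eq_zero_right h4
    calc star x * star d * (b * x) = star x * (star d * b) * x := by simp only [mul_assoc]
      _ = _ := by rw [e]; simp only [mul_neg, neg_mul, mul_assoc]
  · ext1
    rw [prod_lo, Units.val_mul, pt_val, lo_val, Matrix.fromBlocks_multiply]
    have e1 : star (b * x) * c + star (d * x) * a = star x := by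
      rw [star_mul, star_mul, mul_assoc, mul_assoc, ← mul_add, h3, mul_one]
    have e2 : star (b * x) * d + star (d * x) * b = 0 := by
      rw [star_mul, star_mul, mul_assoc, mul_assoc, ← mul_add, h4, mul_zero]
    rw [← ha, ← hb, ← hc, ← hd, e1, e2]
    congr 1 <;> ext i j <;> fin_cases i <;> fin_cases j <;> simp

/-- the plane `0` commutes with the plane `1` -/
theorem comm_up (g : (Matrix (Unit ⊕ Unit) (Unit ⊕ Unit) P)ˣ) (s : P) :
    embU (pt (0 : Fin 2)) g * up !![0, 0; 0, s] = up !![0, 0; 0, s] * embU (pt (0 : Fin 2)) g := by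
  ext1
  rw [Units.val_mul, Units.val_mul, pt_val, up_val, Matrix.fromBlocks_multiply,
    Matrix.fromBlocks_multiply]
  congr 1 <;> ext i j <;> fin_cases i <;> fin_cases j <;> simp

theorem comm_lo (g : (Matrix (Unit ⊕ Unit) (Unit ⊕ Unit) P)ˣ) (s : P) :
    embU (pt (0 : Fin 2)) g * lo !![0, 0; 0, s] = lo !![0, 0; 0, s] * embU (pt (0 : Fin 2)) g := by
  ext1
  rw [Units.val_mul, Units.val_mul, pt_val, lo_val, Matrix.fromBlocks_multiply,
    Matrix.fromBlocks_multiply]
  congr 1 <;> ext i j <;> fin_cases i <;> fin_cases j <;> simp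

omit [StarRing P] in
theorem up_mul_up (B C : Matrix (Fin 2) (Fin 2) P) : up B * up C = up (B + C) := by
  ext1
  rw [Units.val_mul, up_val, up_val, up_val, Matrix.fromBlocks_multiply]
  simp [add_comm]

omit [StarRing P] in
theorem lo_mul_lo (B C : Matrix (Fin 2) (Fin 2) P) : lo B * lo C = lo (B + C) := by
  ext1
  rw [Units.val_mul, lo_val, lo_val, lo_val, Matrix.fromBlocks_multiply]
  simp

/-- the long root element of plane `0` from the others -/
theorem up_zero (s : P) (hs : star s = -s) :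
    up !![s, 0; 0, 0] = lev (el (0 : Fin 2) 1 (by decide) s) * lo !![0, 0; 0, -s] *
      up !![0, -1; 1, 0] * lo !![0, 0; 0, s] * up !![0, 1; -1, 0] := by
  ext1
  simp only [Units.val_mul]
  rw [lev_el01_val, up_val, up_val, up_val, lo_val, lo_val, Matrix.fromBlocks_multiply,
    Matrix.fromBlocks_multiply, Matrix.fromBlocks_multiply, Matrix.fromBlocks_multiply, hs]
  congr 1 <;> ext i j <;> fin_cases i <;> fin_cases j <;> simp

theorem lo_zero (s : P) (hs : star s = -s) :
    lo !![s, 0; 0, 0] = lev (el (1 : Fin 2) 0 (by decide) (-s)) * up !![0, 0; 0, -s] *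
      lo !![0, 1; -1, 0] * up !![0, 0; 0, s] * lo !![0, -1; 1, 0] := by
  ext1
  simp only [Units.val_mul]
  rw [lev_el10_val, up_val, up_val, lo_val, lo_val, lo_val, Matrix.fromBlocks_multiply,
    Matrix.fromBlocks_multiply, Matrix.fromBlocks_multiply, Matrix.fromBlocks_multiply, star_neg, hs]
  congr 1 <;> ext i j <;> fin_cases i <;> fin_cases j <;> simp

theorem Sk_of (s t q : P) (hs : star s = -s) (ht : star t = -t) :
    Sk 1 (!![s, -star q; q, t] : Matrix (Fin 2) (Fin 2) P) := by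
  unfold Sk
  ext i j
  fin_cases i <;> fin_cases j <;> simp [hs, ht]

theorem Sk_of' (s t q : P) (hs : star s = -s) (ht : star t = -t) :
    Sk 1 (!![s, q; -star q, t] : Matrix (Fin 2) (Fin 2) P) := by
  unfold Sk
  ext i j
  fin_cases i <;> fin_cases j <;> simp [hs, ht]

theorem Sk_entries {B : Matrix (Fin 2) (Fin 2) P} (hB : Sk 1 B) : star (B 0 0) = -(B 0 0) ∧
    star (B 1 1) = -(B 1 1) ∧ B 0 1 = -star (B 1 0) := by
  have h : Bᴴ = -B := by rw [hB, one_smul]
  have e1 := congrFun (congrFun h 0) 0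
  have e2 := congrFun (congrFun h 1) 1
  have e3 := congrFun (congrFun h 0) 1
  refine ⟨e1, e2, ?_⟩
  change star (B 1 0) = -(B 0 1) at e3
  rw [e3, neg_neg]

/-- plane unitary groups normalise `EU` -/
theorem conj_mem_zero (hL : ∀ (i j : Fin 2) (h : i ≠ j) (x : P), lev (el i j h x) ∈ EU 1 (Fin 2) P)
    (g : (Matrix (Unit ⊕ Unit) (Unit ⊕ Unit) P)ˣ) (hg : g ∈ UG 1 Unit P)
    (e : (Matrix (Fin 2 ⊕ Fin 2) (Fin 2 ⊕ Fin 2) P)ˣ) (he : e ∈ EU 1 (Fin 2) P) :
    embU (pt (0 : Fin 2)) g * e * (embU (pt (0 : Fin 2)) g)⁻¹ ∈ EU 1 (Fin 2) P := by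
  set G := embU (pt (0 : Fin 2)) g with hG
  let T : Subgroup (Matrix (Fin 2 ⊕ Fin 2) (Fin 2 ⊕ Fin 2) P)ˣ :=
    (EU 1 (Fin 2) P).comap (MulAut.conj G).toMonoidHom
  have mT : ∀ x, x ∈ T ↔ G * x * G⁻¹ ∈ EU 1 (Fin 2) P := fun x => Iff.rfl
  have z0 : star (0 : P) = -0 := by simp
  have key : ∀ {x y : (Matrix (Fin 2 ⊕ Fin 2) (Fin 2 ⊕ Fin 2) P)ˣ}, G * x = y * G →
      y ∈ EU 1 (Fin 2) P → x ∈ T := by
    intro x y h hy
    rw [mT, h, mul_inv_cancel_right]
    exact hy
  have t10 : ∀ x, lev (el (1 : Fin 2) 0 (by decide) x) ∈ T := by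
    intro x
    obtain ⟨p, q, t, ht, h⟩ := conj_el10 hg x
    exact key h (mul_mem (hL _ _ _ _) (up_mem (Sk_of _ _ _ z0 ht)))
  have t01 : ∀ x, lev (el (0 : Fin 2) 1 (by decide) x) ∈ T := by
    intro x
    obtain ⟨p, q, t, ht, h⟩ := conj_el01 hg x
    exact key h (mul_mem (hL _ _ _ _) (lo_mem (Sk_of' _ _ _ z0 ht)))
  have tu : ∀ x, up !![0, -star x; x, 0] ∈ T := by
    intro x
    obtain ⟨p, q, t, ht, h⟩ := conj_up hg x
    exact key h (mul_mem (hL _ _ _ _) (up_mem (Sk_of _ _ _ z0 ht)))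
  have tl : ∀ x, lo !![0, x; -star x, 0] ∈ T := by
    intro x
    obtain ⟨p, q, t, ht, h⟩ := conj_lo hg x
    exact key h (mul_mem (hL _ _ _ _) (lo_mem (Sk_of' _ _ _ z0 ht)))
  have tu1 : ∀ s, star s = -s → up !![0, 0; 0, s] ∈ T := by
    intro s hs
    refine key (comm_up g s) (up_mem ?_)
    have := Sk_of 0 s 0 z0 hs
    simpa using this
  have tl1 : ∀ s, star s = -s → lo !![0, 0; 0, s] ∈ T := by
    intro s hs
    refine key (comm_lo g s) (lo_mem ?_)
    have := Sk_of 0 s 0 z0 hs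
    simpa using this
  have tu0 : ∀ s, star s = -s → up !![s, 0; 0, 0] ∈ T := by
    intro s hs
    have h1 := tu 1
    have h2 := tu (-1)
    rw [star_one] at h1
    rw [star_neg, star_one, neg_neg] at h2
    rw [up_zero s hs]
    exact mul_mem (mul_mem (mul_mem (mul_mem (t01 _) (tl1 _ (by rw [star_neg, hs]))) h1)
      (tl1 _ hs)) h2
  have tl0 : ∀ s, star s = -s → lo !![s, 0; 0, 0] ∈ T := by
    intro s hs
    have h1 := tl 1
    have h2 := tl (-1)
    rw [star_one] at h1
    rw [star_neg, star_one, neg_neg] at h2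
    rw [lo_zero s hs]
    exact mul_mem (mul_mem (mul_mem (mul_mem (t10 _) (tu1 _ (by rw [star_neg, hs]))) h1)
      (tu1 _ hs)) h2
  have hT : EU 1 (Fin 2) P ≤ T := by
    refine sup_le ?_ ?_
    · rintro _ ⟨B, hB, rfl⟩
      obtain ⟨h1, h2, h3⟩ := Sk_entries hB
      have : up B = up !![B 0 0, 0; 0, 0] * up !![0, -star (B 1 0); B 1 0, 0] *
          up !![0, 0; 0, B 1 1] := by
        rw [up_mul_up, up_mul_up]
        congr 1
        ext i j
        fin_cases i <;> fin_cases j <;> simp [h3]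
      rw [this]
      exact mul_mem (mul_mem (tu0 _ h1) (tu _)) (tu1 _ h2)
    · rintro _ ⟨B, hB, rfl⟩
      obtain ⟨h1, h2, h3⟩ := Sk_entries hB
      have h4 : -star (B 0 1) = B 1 0 := by rw [h3, star_neg, star_star, neg_neg]
      have : lo B = lo !![B 0 0, 0; 0, 0] * lo !![0, B 0 1; -star (B 0 1), 0] *
          lo !![0, 0; 0, B 1 1] := by
        rw [lo_mul_lo, lo_mul_lo]
        congr 1
        ext i j
        fin_cases i <;> fin_cases j <;> simp [h4]
      rw [this]
      exact mul_mem (mul_mem (tl0 _ h1) (tl _)) (tl1 _ h2)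
  exact hT he

/-- plane unitary groups normalise `EU` -/
theorem conj_mem (hL : ∀ (i j : Fin 2) (h : i ≠ j) (x : P), lev (el i j h x) ∈ EU 1 (Fin 2) P)
    (x0 : Fin 2) (g : (Matrix (Unit ⊕ Unit) (Unit ⊕ Unit) P)ˣ) (hg : g ∈ UG 1 Unit P)
    (e : (Matrix (Fin 2 ⊕ Fin 2) (Fin 2 ⊕ Fin 2) P)ˣ) (he : e ∈ EU 1 (Fin 2) P) :
    embU (pt x0) g * e * (embU (pt x0) g)⁻¹ ∈ EU 1 (Fin 2) P := by
  have h01 : x0 = 0 ∨ x0 = 1 := by fin_cases x0 <;> simp
  rcases h01 with rfl | rfl
  · exact conj_mem_zero hL g hg e he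
  · have e1 : embU (pt (1 : Fin 2)) g = embU sw (embU (pt (0 : Fin 2)) g) := by
      rw [embU_embU]
      rfl
    have e2 : e = embU sw (embU sw e) := by
      rw [embU_embU, embU_eq_self _ (fun x => sw_sw x)]
    have h1 := embU_mem_EU sw (conj_mem_zero hL g hg (embU sw e) (embU_mem_EU sw he))
    rw [map_mul, map_mul, map_inv, ← e2, ← e1] at h1
    exact h1

variable (P) in
/-- the matrices `A` with `lev A` elementary -/
def H4 : Subgroup (Matrix (Fin 2) (Fin 2) P)ˣ := (EU 1 (Fin 2) P).comap lev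

theorem mem_H4 {A : (Matrix (Fin 2) (Fin 2) P)ˣ} : A ∈ H4 P ↔ lev A ∈ EU 1 (Fin 2) P := Iff.rfl

/-- the Levi subgroup normalises `EU` -/
theorem lev_conj_mem {n : Type*} [DecidableEq n] [Fintype n] (A : (Matrix n n P)ˣ)
    (e : (Matrix (n ⊕ n) (n ⊕ n) P)ˣ) (he : e ∈ EU 1 n P) :
    lev A * e * (lev A)⁻¹ ∈ EU 1 n P := by
  let T : Subgroup (Matrix (n ⊕ n) (n ⊕ n) P)ˣ :=
    (EU 1 n P).comap (MulAut.conj (lev A)).toMonoidHom
  have hT : EU 1 n P ≤ T := by
    refine sup_le ?_ ?_
    · rintro _ ⟨B, hB, rfl⟩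
      change lev A * up B * (lev A)⁻¹ ∈ EU 1 n P
      have : lev A * up B * (lev A)⁻¹ = up (A.val * B * A.valᴴ) := by
        ext1
        have hinv : ((lev A)⁻¹).val = Matrix.fromBlocks A⁻¹.val 0 0 (A.val)ᴴ := rfl
        have h1 : A.val * A⁻¹.val = 1 := by rw [← Units.val_mul, mul_inv_cancel, Units.val_one]
        have h2 : (A⁻¹.val)ᴴ * A.valᴴ = 1 := by
          rw [← Matrix.conjTranspose_mul, h1, Matrix.conjTranspose_one]
        rw [Units.val_mul, Units.val_mul, hinv, lev_val, up_val, up_val,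
          Matrix.fromBlocks_multiply, Matrix.fromBlocks_multiply]
        simp [h1, h2]
      rw [this]
      refine up_mem ?_
      unfold Sk at *
      rw [Matrix.conjTranspose_mul, Matrix.conjTranspose_mul, hB,
        Matrix.conjTranspose_conjTranspose]
      simp [Matrix.mul_assoc]
    · rintro _ ⟨B, hB, rfl⟩
      change lev A * lo B * (lev A)⁻¹ ∈ EU 1 n P
      have : lev A * lo B * (lev A)⁻¹ = lo ((A⁻¹.val)ᴴ * B * A⁻¹.val) := by
        ext1
        have hinv : ((lev A)⁻¹).val = Matrix.fromBlocks A⁻¹.val 0 0 (A.val)ᴴ := rfl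
        have h1 : A.val * A⁻¹.val = 1 := by rw [← Units.val_mul, mul_inv_cancel, Units.val_one]
        have h2 : (A⁻¹.val)ᴴ * A.valᴴ = 1 := by
          rw [← Matrix.conjTranspose_mul, h1, Matrix.conjTranspose_one]
        rw [Units.val_mul, Units.val_mul, hinv, lev_val, lo_val, lo_val,
          Matrix.fromBlocks_multiply, Matrix.fromBlocks_multiply]
        simp [h1, h2]
      rw [this]
      refine lo_mem ?_
      unfold Sk at *
      rw [Matrix.conjTranspose_mul, Matrix.conjTranspose_mul, hB,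
        Matrix.conjTranspose_conjTranspose]
      simp [Matrix.mul_assoc]
  exact hT he

instance H4_normal : (H4 P).Normal where
  conj_mem A hA B := by
    rw [mem_H4, map_mul, map_mul, map_inv]
    exact lev_conj_mem B _ hA

end E2

end BWE
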