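import Pool.Agent.BW.PhiP

/-!
# Two planes: the homomorphism `∏ GL₂(𝔽_{p_i}) → GL₂(∏ Λ_i) / H` for an abstract normal subgroup
`H` which contains the elementary matrices and satisfies the multiplicativity of the classes of
the matrices with data `(p, x | x, p)`. Copy of `BW/PhiP.lean` (`UU_mem`).
-/

namespace BWE

open Matrix
open BW hiding star

section Data

variable {S : Type*} [Ring S]

/-- two matrices with the same data differ by an elementary matrix -/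
theorem same_data_el {A B : (Matrix (Fin 2) (Fin 2) S)ˣ} {a b b' a' : S}
    (hA : HasData A a b b' a') (hB : HasData B a b b' a') :
    ∃ x : S, A * B⁻¹ = el 1 0 (by decide) x := by
  have h00 := hA.h00.trans hB.h00.symm
  have h01 := hA.h01.trans hB.h01.symm
  have h0 := hA.h0.trans hB.h0.symm
  have h1 := hA.h1.trans hB.h1.symm
  obtain ⟨⟨r1, r2⟩, ⟨r3, r4⟩⟩ := row_col B
  obtain ⟨⟨q1, q2⟩, ⟨q3, q4⟩⟩ := row_col A
  refine ⟨(A * B⁻¹).val 1 0, ?_⟩
  ext1
  rw [el_val]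
  have e : ∀ i j, (A * B⁻¹).val i j = A.val i 0 * B⁻¹.val 0 j + A.val i 1 * B⁻¹.val 1 j := by
    intro i j; rw [Units.val_mul, Matrix.mul_apply, Fin.sum_univ_two]
  ext i j
  fin_cases i <;> fin_cases j
  · change (A * B⁻¹).val 0 0 = _
    rw [e, h00, h01, r1]; simp
  · change (A * B⁻¹).val 0 1 = _
    rw [e, h00, h01, r2]; simp
  · simp
  · change (A * B⁻¹).val 1 1 = _
    rw [e, ← h0, ← h1, q4]; simp

variable (H : Subgroup (Matrix (Fin 2) (Fin 2) S)ˣ) [H.Normal]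
  (hel : ∀ (i j : Fin 2) (h : i ≠ j) (x : S), el i j h x ∈ H)

include hel

theorem congr_abs {A B : (Matrix (Fin 2) (Fin 2) S)ˣ} {a b b' a' : S}
    (hA : HasData A a b b' a') (hB : HasData B a b b' a') : A ∈ H ↔ B ∈ H := by
  obtain ⟨x, hx⟩ := same_data_el hA hB
  have h : A * B⁻¹ ∈ H := by rw [hx]; exact hel _ _ _ _
  constructor
  · intro h1
    have := (Subgroup.mul_mem_cancel_left _ h1).1 h
    exact (Subgroup.inv_mem_iff _).1 this
  · intro h1
    exact (Subgroup.mul_mem_cancel_right _ (inv_mem h1)).1 h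

theorem mk_eq_abs {A B : (Matrix (Fin 2) (Fin 2) S)ˣ} {a b b' a' : S}
    (hA : HasData A a b b' a') (hB : HasData B a b b' a') :
    (QuotientGroup.mk A : (Matrix (Fin 2) (Fin 2) S)ˣ ⧸ H) = QuotientGroup.mk B := by
  obtain ⟨x, hx⟩ := same_data_el hA hB
  have h : A * B⁻¹ ∈ H := by rw [hx]; exact hel _ _ _ _
  have h2 : (QuotientGroup.mk (A * B⁻¹) : (Matrix (Fin 2) (Fin 2) S)ˣ ⧸ H) = 1 :=
    (QuotientGroup.eq_one_iff _).2 h
  rw [QuotientGroup.mk_mul, QuotientGroup.mk_inv, mul_inv_eq_one] at h2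
  exact h2

omit hel in
theorem mk_mul_abs (A B : (Matrix (Fin 2) (Fin 2) S)ˣ) (hB : B ∈ H) :
    (QuotientGroup.mk (A * B) : (Matrix (Fin 2) (Fin 2) S)ˣ ⧸ H) = QuotientGroup.mk A := by
  rw [QuotientGroup.mk_mul, (QuotientGroup.eq_one_iff B).2 hB, mul_one]

end Data

section Phi

variable {ι : Type*} {N : ι → ℕ} {R Λ : ι → Type*} [∀ i, CommRing (R i)] [∀ i, Ring (Λ i)]
  [∀ i, Algebra (R i) (Λ i)] (Q : ∀ i, QAlg (N i) (R i) (Λ i)) (p : ι → ℕ)
  (H : Subgroup (Matrix (Fin 2) (Fin 2) (∀ i, Λ i))ˣ) [H.Normal]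
  (hel : ∀ (i j : Fin 2) (h : i ≠ j) (x : ∀ i, Λ i), el i j h x ∈ H)
  (hmul : ∀ (x y : ∀ i, Λ i) (A B C : (Matrix (Fin 2) (Fin 2) (∀ i, Λ i))ˣ),
    HasData A (cen (pc R p)) x x (cen (pc R p)) → HasData B (cen (pc R p)) y y (cen (pc R p)) →
    HasData C (cen (pc R p)) (x * y) (x * y) (cen (pc R p)) → A * B * C⁻¹ ∈ H)
  (ρ : ∀ i, Λ i →+* Matrix (Fin 2) (Fin 2) (ZMod (p i)))
  (hs : ∀ i, Function.Surjective (ρ i)) (hk : ∀ i, ∀ x, ρ i x = 0 → ∃ y, x = (p i : Λ i) * y)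

include hmul in
theorem UU_mk_mul_abs (x y : ∀ i, Λ i) (α β α' β' : ∀ i, R i)
    (h : α * nn Q x + β * pc R p = 1) (h' : α' * nn Q y + β' * pc R p = 1) :
    (QuotientGroup.mk (UU Q x (pc R p) α β h) * QuotientGroup.mk (UU Q y (pc R p) α' β' h') :
      (Matrix (Fin 2) (Fin 2) (∀ i, Λ i))ˣ ⧸ H) =
    QuotientGroup.mk (UU Q (x * y) (pc R p) (α * α') (β' + α' * β * nn Q y) (UU_rel Q h h')) := by
  have h1 := hmul x y _ _ _ (UU_data Q x (pc R p) α β h) (UU_data Q y (pc R p) α' β' h')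
    (UU_data Q (x * y) (pc R p) (α * α') (β' + α' * β * nn Q y) (UU_rel Q h h'))
  have h2 := (QuotientGroup.eq_one_iff _).2 h1
  rw [QuotientGroup.mk_mul, QuotientGroup.mk_inv, mul_inv_eq_one, QuotientGroup.mk_mul] at h2
  exact h2

include hk hel in
theorem UU_congr_abs (x x' : ∀ i, Λ i) (hx : ∀ i, ρ i (x i) = ρ i (x' i)) (α β α' β' : ∀ i, R i)
    (h : α * nn Q x + β * pc R p = 1) (h' : α' * nn Q x' + β' * pc R p = 1) :
    (QuotientGroup.mk (UU Q x (pc R p) α β h) : (Matrix (Fin 2) (Fin 2) (∀ i, Λ i))ˣ ⧸ H) =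
    QuotientGroup.mk (UU Q x' (pc R p) α' β' h') := by
  choose w hw using fun i => hk i (x' i - x i) (by rw [map_sub, hx i, sub_self])
  have e1 : x + cen (pc R p) * w = x' := by
    funext i
    rw [cen_pc]
    change x i + (p i : Λ i) * w i = x' i
    rw [← hw i]; abel
  have e2 : x + w * cen (pc R p) = x' := by
    rw [← cen_comm, e1]
  have d1 := (UU_data Q x (pc R p) α β h).mul_el01 w
  rw [e1, e2] at d1
  have d2 := UU_data Q x' (pc R p) α' β' h'
  rw [← mk_mul_abs H _ _ (hel 0 1 (by decide) w)]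
  exact mk_eq_abs H hel d1 d2

/-- the class of the matrix `UU` for the lift of `g` -/
noncomputable def phiFunA (g : ∀ i, (Matrix (Fin 2) (Fin 2) (ZMod (p i)))ˣ) :
    (Matrix (Fin 2) (Fin 2) (∀ i, Λ i))ˣ ⧸ H :=
  QuotientGroup.mk (UU Q (lift p ρ hs g) (pc R p)
    (exists_ab Q p ρ hs hk _ g (rho_lift p ρ hs g)).choose
    (exists_ab Q p ρ hs hk _ g (rho_lift p ρ hs g)).choose_spec.choose
    (exists_ab Q p ρ hs hk _ g (rho_lift p ρ hs g)).choose_spec.choose_spec)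

include hel in
theorem phiFunA_eq (g : ∀ i, (Matrix (Fin 2) (Fin 2) (ZMod (p i)))ˣ) (x : ∀ i, Λ i)
    (hx : ∀ i, ρ i (x i) = (g i).val) (α β : ∀ i, R i) (h : α * nn Q x + β * pc R p = 1) :
    phiFunA Q p H ρ hs hk g = QuotientGroup.mk (UU Q x (pc R p) α β h) :=
  UU_congr_abs Q p H hel ρ hk _ _ (fun i => by rw [rho_lift, hx i]) _ _ _ _ _ _

/-- the homomorphism `φ_p` -/
noncomputable def phiHomA : (∀ i, (Matrix (Fin 2) (Fin 2) (ZMod (p i)))ˣ) →*
    (Matrix (Fin 2) (Fin 2) (∀ i, Λ i))ˣ ⧸ H :=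
  MonoidHom.mk' (phiFunA Q p H ρ hs hk) (fun g g' => by
    rw [phiFunA_eq Q p H hel ρ hs hk (g * g') (lift p ρ hs g * lift p ρ hs g') (fun i => by
      rw [Pi.mul_apply, map_mul, rho_lift, rho_lift]; rfl) _ _ (UU_rel Q
        (exists_ab Q p ρ hs hk _ g (rho_lift p ρ hs g)).choose_spec.choose_spec
        (exists_ab Q p ρ hs hk _ g' (rho_lift p ρ hs g')).choose_spec.choose_spec),
      ← UU_mk_mul_abs Q p H hmul]
    rfl)

theorem mem_ker_abs (g : ∀ i, (Matrix (Fin 2) (Fin 2) (ZMod (p i)))ˣ) (x : ∀ i, Λ i)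
    (hx : ∀ i, ρ i (x i) = (g i).val) (α β : ∀ i, R i) (h : α * nn Q x + β * pc R p = 1) :
    g ∈ (phiHomA Q p H hel hmul ρ hs hk).ker ↔ UU Q x (pc R p) α β h ∈ H := by
  rw [MonoidHom.mem_ker, ← QuotientGroup.eq_one_iff, ← phiFunA_eq Q p H hel ρ hs hk g x hx α β h]
  rfl

variable (hck : ∀ A : (Matrix (Fin 2) (Fin 2) (ι → ℤ))ˣ, A.val.det = 1 →
      Units.map ((RingHom.pi fun i => (Int.castRingHom (Λ i)).comp
        (Pi.evalRingHom (fun _ => ℤ) i) : (ι → ℤ) →+* ∀ i, Λ i).mapMatrix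
          (m := Fin 2)).toMonoidHom A ∈ H)

open Pool.Agent.Helper24.BWR in
include hck in
theorem scalars_mem_abs [∀ i, Fact (p i).Prime] (s : ∀ i, (ZMod (p i))ˣ) :
    (fun i => sc (s i)) ∈ (phiHomA Q p H hel hmul ρ hs hk).ker := by
  set a : ι → ℕ := fun i => (s i).val.val with ha
  have hcop : ∀ i, ∃ α β : ℤ, α * (a i : ℤ) ^ 2 + β * (p i : ℤ) = 1 := by
    intro i
    have h1 : ¬ p i ∣ a i := by
      intro h
      rw [← ZMod.natCast_eq_zero_iff, ha] at h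
      simp only [ZMod.natCast_val, ZMod.cast_id', id_eq] at h
      exact (s i).ne_zero h
    have h2 : (p i).Coprime (a i) := ((Fact.out : (p i).Prime).coprime_iff_not_dvd).2 h1
    have h3 : IsCoprime ((a i : ℤ)) (p i : ℤ) := by
      rw [Int.isCoprime_iff_gcd_eq_one]
      exact_mod_cast h2.symm
    exact h3.pow_left (m := 2)
  choose α β hαβ using hcop
  -- the integral matrix
  set M : Matrix (Fin 2) (Fin 2) (ι → ℤ) :=
    !![fun i => (p i : ℤ), fun i => (a i : ℤ); fun i => -(α i * a i), β] with hM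
  have hdet : M.det = 1 := by
    rw [hM, Matrix.det_fin_two_of]
    funext i
    change (p i : ℤ) * β i - (a i : ℤ) * -(α i * a i) = 1
    linear_combination hαβ i
  let ψ : (ι → ℤ) →+* ∀ i, Λ i :=
    RingHom.pi fun i => (Int.castRingHom (Λ i)).comp (Pi.evalRingHom (fun _ => ℤ) i)
  have h1 : Units.map (ψ.mapMatrix (m := Fin 2)).toMonoidHom (mkU M hdet) ∈ H := hck _ hdet
  have hψ : ∀ (b : ι → ℤ) (i : ι), ψ b i = ((b i : ℤ) : Λ i) := fun b i => rfl
  have h2 : HasData (Units.map (ψ.mapMatrix (m := Fin 2)).toMonoidHom (mkU M hdet))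
      (cen (pc R p)) (fun i => (a i : Λ i)) (fun i => (a i : Λ i)) (cen (pc R p)) := by
    rw [cen_pc]
    refine ⟨?_, ?_, ?_, ?_⟩
    · funext i
      change ψ (fun i => (p i : ℤ)) i = _
      rw [hψ]; simp
    · funext i
      change ψ (fun i => (a i : ℤ)) i = _
      rw [hψ]; simp
    · change ψ (M.adjugate 0 1) = _
      rw [hM, Matrix.adjugate_fin_two_of]
      funext i
      change ψ (-(fun i => (a i : ℤ))) i = _
      rw [hψ]; simp
    · change ψ (M.adjugate 1 1) = _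
      rw [hM, Matrix.adjugate_fin_two_of]
      funext i
      change ψ (fun i => (p i : ℤ)) i = _
      rw [hψ]; simp
  have hrel : (fun i => (α i : R i)) * nn Q (fun i => (a i : Λ i)) +
      (fun i => (β i : R i)) * pc R p = 1 := by
    funext i
    change (α i : R i) * (Q i).n (a i : Λ i) + (β i : R i) * (p i : R i) = 1
    rw [← map_natCast (algebraMap (R i) (Λ i)), (Q i).n_algebraMap]
    have := congrArg (Int.cast (R := R i)) (hαβ i)
    push_cast at this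
    exact this
  rw [mem_ker_abs Q p H hel hmul ρ hs hk _ (fun i => (a i : Λ i)) (fun i => ?_)
    (fun i => (α i : R i)) (fun i => (β i : R i)) hrel]
  · exact (congr_abs H hel h2 (UU_data Q _ _ _ _ hrel)).1 h1
  · rw [map_natCast]
    change _ = algebraMap (ZMod (p i)) (Matrix (Fin 2) (Fin 2) (ZMod (p i))) ((s i) : ZMod (p i))
    rw [← map_natCast (algebraMap (ZMod (p i)) (Matrix (Fin 2) (Fin 2) (ZMod (p i))))]
    congr 1
    simp [ha]

include hel in
/-- `UU` is in `H` if `r = 1 + n(x) k` -/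
theorem UU_mem_of_rel_abs (x : ∀ i, Λ i) (r k α β : ∀ i, R i) (hr : r = 1 + k * nn Q x)
    (h : α * nn Q x + β * r = 1) : UU Q x r α β h ∈ H := by
  have d := (one_data (S := ∀ i, Λ i)).mul_el01 x
  have d1 := d.mul_el10 (sj Q k x)
  simp only [zero_add, one_mul, mul_one, mul_sj, sj_mul] at d1
  rw [← cen_one (R := R), ← cen_add, ← hr] at d1
  exact (congr_abs H hel d1 (UU_data Q x r α β h)).1 (mul_mem (hel _ _ _ _) (hel _ _ _ _))

open Pool.Agent.Helper24.BWR in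
include hck in
theorem ker_eq_top_abs [∀ i, Fact (p i).Prime] (h5 : ∀ i, 5 ≤ p i) (z : ∀ i, Λ i) (k : ∀ i, R i)
    (hz : ∀ i, (p i : R i) = 1 + k i * (Q i).n (z i))
    (hns : ∀ i, ¬ IsSquare (ρ i (z i)).det) : (phiHomA Q p H hel hmul ρ hs hk).ker = ⊤ := by
  classical
  have hdet : ∀ i, IsUnit (ρ i (z i)).det := by
    intro i
    rw [isUnit_iff_ne_zero]
    intro h
    exact hns i (by rw [h]; exact ⟨0, by simp⟩)
  have hu : ∀ i, IsUnit (ρ i (z i)) := fun i => (Matrix.isUnit_iff_isUnit_det _).2 (hdet i)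
  refine normal_prod h5 _ (scalars_mem_abs Q p H hel hmul ρ hs hk hck) (fun i => (hu i).unit)
    (fun i => by rw [IsUnit.unit_spec]; exact hns i) (fun e => ?_)
  set x : ∀ i, Λ i := fun i => if e i then z i else 1 with hx
  set k' : ∀ i, R i := fun i => if e i then k i else (p i : R i) - 1 with hk'
  have hr : pc R p = 1 + k' * nn Q x := by
    funext i
    change (p i : R i) = 1 + k' i * (Q i).n (x i)
    simp only [hx, hk']
    split_ifs
    · exact hz i
    · rw [(Q i).n_one]; ring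
  have hrel : (-k') * nn Q x + 1 * pc R p = 1 := by
    rw [hr]; ring
  rw [mem_ker_abs Q p H hel hmul ρ hs hk _ x (fun i => ?_) (-k') 1 hrel]
  · exact UU_mem_of_rel_abs Q H hel x _ k' _ _ hr hrel
  · simp only [hx]
    split_ifs
    · rfl
    · rw [map_one, Units.val_one]

end Phi

section E5

variable {ι : Type*} {N : ι → ℕ} {R Λ : ι → Type*} [∀ i, CommRing (R i)] [∀ i, Ring (Λ i)]
  [∀ i, Algebra (R i) (Λ i)] (Q : ∀ i, QAlg (N i) (R i) (Λ i)) (p : ι → ℕ)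

/-- the matrices of the type `(p, x | x, p)` are in `H` -/
theorem UU_mem_abs (H : Subgroup (Matrix (Fin 2) (Fin 2) (∀ i, Λ i))ˣ) (hn : H.Normal)
    (hel : ∀ (i j : Fin 2) (h : i ≠ j) (x : ∀ i, Λ i), el i j h x ∈ H)
    (hmul : ∀ (x y : ∀ i, Λ i) (A B C : (Matrix (Fin 2) (Fin 2) (∀ i, Λ i))ˣ),
      HasData A (cen (pc R p)) x x (cen (pc R p)) → HasData B (cen (pc R p)) y y (cen (pc R p)) →
      HasData C (cen (pc R p)) (x * y) (x * y) (cen (pc R p)) → A * B * C⁻¹ ∈ H)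
    (hck : ∀ A : (Matrix (Fin 2) (Fin 2) (ι → ℤ))ˣ, A.val.det = 1 →
      Units.map ((RingHom.pi fun i => (Int.castRingHom (Λ i)).comp
        (Pi.evalRingHom (fun _ => ℤ) i) : (ι → ℤ) →+* ∀ i, Λ i).mapMatrix
          (m := Fin 2)).toMonoidHom A ∈ H)
    (ρ : ∀ i, Λ i →+* Matrix (Fin 2) (Fin 2) (ZMod (p i)))
    (hs : ∀ i, Function.Surjective (ρ i)) (hk : ∀ i, ∀ x, ρ i x = 0 → ∃ y, x = (p i : Λ i) * y)
    [∀ i, Fact (p i).Prime] (h5 : ∀ i, 5 ≤ p i) (z : ∀ i, Λ i) (k : ∀ i, R i)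
    (hz : ∀ i, (p i : R i) = 1 + k i * (Q i).n (z i))
    (hns : ∀ i, ¬ IsSquare (ρ i (z i)).det) (x : ∀ i, Λ i) (α β : ∀ i, R i)
    (h : α * nn Q x + β * pc R p = 1) : UU Q x (pc R p) α β h ∈ H := by
  have h1 : ∀ i, ρ i (x i) * ρ i (sj Q α x i) = 1 := by
    intro i
    rw [← map_mul]
    have e1 : x i * sj Q α x i = 1 - (p i : Λ i) * algebraMap (R i) (Λ i) (β i) := by
      have e2 := congrFun (mul_sj Q α x) i
      have e3 : cen (α * nn Q x) = (1 - cen (pc R p) * cen β : ∀ i, Λ i) := by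
        rw [← cen_one (R := R), ← cen_mul, eq_sub_iff_add_eq, ← cen_add, mul_comm (pc R p), h]
      rw [e3, cen_pc] at e2
      exact e2
    rw [e1, map_sub, map_mul, map_natCast, map_one]
    have : ((p i : ℕ) : Matrix (Fin 2) (Fin 2) (ZMod (p i))) = 0 := by
      rw [← map_natCast (algebraMap (ZMod (p i)) (Matrix (Fin 2) (Fin 2) (ZMod (p i))))]
      simp
    rw [this, zero_mul, sub_zero]
  let g : ∀ i, (Matrix (Fin 2) (Fin 2) (ZMod (p i)))ˣ := fun i =>
    ⟨ρ i (x i), ρ i (sj Q α x i), h1 i, mul_eq_one_comm.1 (h1 i)⟩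
  rw [← mem_ker_abs Q p H hel hmul ρ hs hk g x (fun i => rfl) α β h,
    ker_eq_top_abs Q p H hel hmul ρ hs hk hck h5 z k hz hns]
  exact Subgroup.mem_top _

end E5

end BWE
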